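import Pool.Agent.Y504.CO.Stm7
import Pool.Agent.Y504.CO.Stm5

/-!
# Persistence of the recurrence near a transverse homoclinic orbit: statements
-/

set_option autoImplicit false

open scoped Manifold ContDiff Topology
open Filter Set Metric

universe u

namespace Pool.Agent.Y504.CO

open Pool.Agent.H718R2.G Pool.Agent.TH80.OMS

/-- `G'` is `δ`-close to `G` in the `C¹` sense on the ball of radius `ρ` around `a`. -/
def C1Near {E : Type} [NormedAddCommGroup E] [NormedSpace ℝ E] (G G' : E → E) (a : E) (ρ δ : ℝ) :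
    Prop :=
  ∀ x ∈ closedBall a ρ, DifferentiableAt ℝ G' x ∧ ‖G' x - G x‖ ≤ δ ∧
    ‖fderiv ℝ G' x - fderiv ℝ G x‖ ≤ δ

/-- HR: as `S_HS`, for all maps which are `C¹`-close to the given ones. -/
def S_HR : Prop :=
  ∀ (E : Type) [NormedAddCommGroup E] [NormedSpace ℝ E] [FiniteDimensional ℝ E] (G Ψ : E → E)
    (ζ : ℤ → E), HomData G Ψ ζ → ∀ ε : ℝ, 0 < ε → ∃ N : ℕ, 1 ≤ N ∧ ∃ ρ δ : ℝ, 0 < ρ ∧ ρ ≤ ε ∧
    0 < δ ∧ ∀ G' Ψ' : E → E, C1Near G G' 0 ρ δ → (∀ i, i ≠ 0 → C1Near G G' (ζ i) ρ δ) →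
      C1Near Ψ Ψ' (ζ 0) ρ δ → ∀ (q : ℕ) (σ : ℤ → Bool), 1 ≤ q →
      (∀ j, σ (j + q) = σ j) → ∃ x : ℤ → E,
        (∀ i, x (i + (q : ℤ) * (2 * (N : ℤ) + 1)) = x i) ∧
        (∀ i, x (i + 1) = (if σ (i / (2 * (N : ℤ) + 1)) = true ∧ i % (2 * (N : ℤ) + 1) = (N : ℤ)
          then Ψ' else G') (x i)) ∧
        ∀ i, ‖x i - (if σ (i / (2 * (N : ℤ) + 1)) = true then ζ (i % (2 * (N : ℤ) + 1) - (N : ℤ))
          else 0)‖ ≤ ε

/-- RH: all maps near a map with a transverse homoclinic orbit have nonperiodic recurrent points. -/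
def S_RH : Prop :=
  ∀ (n : ℕ) (N : Type u) [TopologicalSpace N] [T2Space N] [CompactSpace N] [ChartedSpace (V n) N]
    [IsManifold (𝓡 n) ∞ N] (r : ℕ∞), 1 ≤ r → ∀ (g : DiffM n N r),
    ∀ ψ ∈ IsManifold.maximalAtlas (𝓡 n) ∞ N, ∀ (m L : ℕ) (ζ : ℤ → V n), HomM g ψ m L ζ →
    ∃ U : Set (DiffM n N r), IsOpen[strongTop n N r] U ∧ g ∈ U ∧
      ∀ g' ∈ U, ∃ x ∈ Rec g', x ∉ Per g'

end Pool.Agent.Y504.CO
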