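import Pool.Agent.Y504.CO.KSG
import Pool.Agent.Y504.CO.Stm8
import Pool.Agent.Y504.CO.TR3
import Pool.Agent.Y675.CO.CI
import Pool.Agent.Y450.CO.NB
import Pool.Agent.Y930.CO.HD
import Pool.Agent.Y419.CO.HR
import Pool.Agent.Y801.CO.RH

/-!
# The generic dichotomy
-/

set_option autoImplicit false
set_option linter.unusedSectionVars false

open scoped Manifold ContDiff Topology
open Filter Set Metric

universe u

namespace Pool.Agent.Y504.CO.DicF

open Pool.Agent.H718R2.G Pool.Agent.TH80.OMS Pool.Agent.Y504.CO Pool.Agent.Y504.CO.Plug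

theorem hCI : S_CI.{u} := Pool.Agent.Y675.CO.CI.main
theorem hNB : S_NB.{u} := Pool.Agent.Y450.CO.main
theorem hHD : S_HD.{u} := Pool.Agent.Y930.CO.HD.main hEIG hNB
theorem hHR : S_HR := Pool.Agent.Y419.CO.HR.main hLB hNW
theorem hRH : S_RH.{u} := Pool.Agent.Y801.CO.RH.main hHR hCI hK6
theorem hTR3 : TR3.S_TR3.{u} := TR3.main hLIN hLP hTRK

/-- For generic `f`: if at most countably many recurrent points are not periodic, then `Ω(f)` is
finite and hyperbolic, and there are no cycles. -/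
theorem generic_dichotomy (n : ℕ) (N : Type u)
    [TopologicalSpace N] [T2Space N] [CompactSpace N] [ChartedSpace (V n) N]
    [IsManifold (𝓡 n) ∞ N] (r : ℕ∞) (hr : 1 ≤ r) :
    KSG.BaireSet n N r {f | (∀ p ∈ Per f, IsHyperbolicPer n f p) ∧ ((Rec f \ Per f).Countable →
      FiniteNoCycle f ∧ ∀ p ∈ Omega f, IsHyperbolicPer n f p)} := by
  letI t : TopologicalSpace (DiffM n N r) := strongTop n N r
  let A : Set (DiffM n N r) := interior {g | ∃ x ∈ Rec g, x ∉ Per g}
  have hA : IsOpen A := isOpen_interior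
  have h2 : KSG.BaireSet n N r {f | f ∈ A ∪ (closure A)ᶜ} := by
    refine ⟨fun _ => A ∪ (closure A)ᶜ, fun _ => hA.union isClosed_closure.isOpen_compl, fun _ => ?_,
      fun f hf => hf 0⟩
    rw [dense_iff_inter_open]
    rintro W hW ⟨v, hv⟩
    by_cases hc : v ∈ closure A
    · obtain ⟨w, hw1, hw2⟩ := mem_closure_iff.1 hc W hW hv
      exact ⟨w, hw1, Or.inl hw2⟩
    · exact ⟨v, hv, Or.inr hc⟩
  refine ((KSG.generic_hyp hCI hNB hHD n N r hr).inter h2).mono ?_
  rintro f ⟨hyp, hf⟩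
  have hhyp : ∀ p ∈ Per f, HypAt n f p := hyp
  refine ⟨fun p hp => hyp_charpoly hr f hp (hhyp p hp), fun hc => ?_⟩
  have hR : Rec f ⊆ Per f := Gen.rec_per f hc
  have hfA : f ∉ A := by
    intro h
    obtain ⟨x, hx, hx'⟩ := interior_subset h
    exact hx' (hR hx)
  have hfU : f ∈ (closure A)ᶜ := by
    rcases hf with h | h
    · exact absurd h hfA
    · exact h
  have hU : IsOpen (closure A)ᶜ := isClosed_closure.isOpen_compl
  have hnh : ∀ g ∈ (closure A)ᶜ, ∀ p z, HypAt n g p → ¬ Homoclinic g p z := by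
    intro g hg p z hh hz
    obtain ⟨g', hg', ψ, hψ, m, L, ζ, hM⟩ := hTR3 n N r hr _ hU g hg p z hh hz
    obtain ⟨W, hW, hgW, h⟩ := hRH n N r hr g' ψ hψ m L ζ hM
    have h3 : g' ∈ A := mem_interior.2 ⟨W, fun g'' hg'' => h g'' hg'', hW, hgW⟩
    exact hg' (subset_closure h3)
  have hnc := hNC2 n N r hr _ hU hnh f hfU hhyp
  have hfp : (Omega f).Finite ∧ Omega f ⊆ Per f := by
    by_contra hn
    have := exists_metric n N
    obtain ⟨k, hk⟩ := cyc_of_metric Final.hK1 Final.hK2 hK3 Final.hK4 hK5 f.toHomeomorph hR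
      (fun p hp => hISO n N r hr f p hp (hhyp p hp)) hn
    exact hnc k hk
  exact ⟨finiteNoCycle f hfp.1 hnc, fun p hp => hyp_charpoly hr f (hfp.2 hp) (hhyp p (hfp.2 hp))⟩

end Pool.Agent.Y504.CO.DicF
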