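import Pool.Agent.Y504.CO.Stm2

/-!
# Project CO (helper504), job F2: all periodic points are hyperbolic

Proof plan by helper504.
-/

set_option autoImplicit false

open scoped Manifold ContDiff Topology
open Filter Set Metric

universe u

namespace Pool.Agent.Y504.CO.F2c

open Pool.Agent.H718R2.G Pool.Agent.TH80.OMS Pool.Agent.Y504.CO

/-! ### powers of linear maps -/

theorem noBdd_pow {E : Type} [NormedAddCommGroup E] [NormedSpace ℝ E] {A : E →L[ℝ] E}
    (h : NoBdd (fun _ => A)) {l : ℕ} (hl : 1 ≤ l) : NoBdd (fun _ => A ^ l) := by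
  rintro v ⟨C, hC⟩ hv
  have hl0 : (0 : ℤ) < l := by exact_mod_cast hl
  have hC0 : 0 ≤ C := (norm_nonneg _).trans (hC 0)
  set w : ℤ → E := fun t => (A ^ (t % l).toNat) (v (t / l)) with hw
  have hw0 : ∀ t, w t = 0 := by
    refine h w ⟨(∑ j ∈ Finset.range l, ‖A ^ j‖) * C, fun t => ?_⟩ fun t => ?_
    · have h1 : (t % l).toNat ∈ Finset.range l := by
        rw [Finset.mem_range]
        have h2 := Int.emod_lt_of_pos t hl0
        have h3 := Int.emod_nonneg t hl0.ne'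
        omega
      have h2 : ‖A ^ (t % l).toNat‖ ≤ ∑ j ∈ Finset.range l, ‖A ^ j‖ :=
        Finset.single_le_sum (f := fun j => ‖A ^ j‖) (fun j _ => norm_nonneg _) h1
      calc ‖w t‖ ≤ ‖A ^ (t % l).toNat‖ * ‖v (t / l)‖ := ContinuousLinearMap.le_opNorm _ _
        _ ≤ _ := mul_le_mul h2 (hC _) (norm_nonneg _) (Finset.sum_nonneg fun j _ => norm_nonneg _)
    · have h2 := Int.emod_lt_of_pos t hl0
      have h3 := Int.emod_nonneg t hl0.ne'
      have h4 := Int.mul_ediv_add_emod t l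
      by_cases h5 : t % l + 1 = l
      · have h6 : t + 1 = l * (t / l + 1) := by linear_combination -h4 + h5
        have h7 : (t + 1) % l = 0 := by rw [h6]; exact Int.mul_emod_right _ _
        have h8 : (t + 1) / l = t / l + 1 := by
          conv_lhs => rw [h6]
          exact Int.mul_ediv_cancel_left _ hl0.ne'
        have h9 : l = (t % l).toNat + 1 := by omega
        show (A ^ ((t + 1) % l).toNat) (v ((t + 1) / l)) = A ((A ^ (t % l).toNat) (v (t / l)))
        rw [h7, h8, hv]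
        have h10 : A ^ l = A * A ^ (t % l).toNat := by
          conv_lhs => rw [h9]
          rw [pow_succ']
        show (A ^ (0 : ℤ).toNat) ((A ^ l) (v (t / l))) = _
        rw [h10]
        rfl
      · have h6 : t + 1 = (t % l + 1) + l * (t / l) := by linear_combination -h4
        have h7 : (t + 1) % l = t % l + 1 := by
          rw [h6, Int.add_mul_emod_self_left]
          exact Int.emod_eq_of_lt (by omega) (by omega)
        have h8 : (t + 1) / l = t / l := by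
          conv_lhs => rw [h6]
          rw [Int.add_mul_ediv_left _ _ hl0.ne', Int.ediv_eq_zero_of_lt (by omega) (by omega),
            zero_add]
        show (A ^ ((t + 1) % l).toNat) (v ((t + 1) / l)) = A ((A ^ (t % l).toNat) (v (t / l)))
        rw [h7, h8]
        have h9 : (t % l + 1).toNat = (t % l).toNat + 1 := by omega
        rw [h9, pow_succ']
        rfl
  intro i
  have h1 := hw0 (l * i)
  have h2 : (l * i) % (l : ℤ) = 0 := Int.mul_emod_right _ _
  have h3 : (l * i) / (l : ℤ) = i := Int.mul_ediv_cancel_left _ hl0.ne'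
  simp only [hw, h2, h3] at h1
  exact h1

/-! ### iterates of perturbed maps -/

section iter

variable {N : Type u} {g g' Φ : N → N}

theorem iter_near {O : Set N} (hg' : ∀ y, g' y = g (Φ y)) (hΦ : ∀ y, y ∉ O → Φ y = y) {m : ℕ}
    {y : N} (h : ∀ i, 0 < i → i < m → g^[i] (Φ y) ∉ O) :
    ∀ l, 1 ≤ l → l ≤ m → g'^[l] y = g^[l] (Φ y) := by
  intro l hl
  induction l, hl using Nat.le_induction with
  | base => intro _; exact hg' y
  | succ l hl ih =>
    intro hlm
    rw [Function.iterate_succ_apply', ih (by omega), hg', hΦ _ (h l (by omega) (by omega)),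
      Function.iterate_succ_apply']

theorem iter_fix {X : Set N} (hg' : ∀ y, g' y = g (Φ y)) (hX : ∀ x ∈ X, g x ∈ X)
    (hΦ : ∀ x ∈ X, Φ x = x) {q : N} (hq : q ∈ X) (i : ℕ) : g'^[i] q = g^[i] q ∧ g^[i] q ∈ X := by
  induction i with
  | zero => exact ⟨rfl, hq⟩
  | succ i ih =>
    obtain ⟨h1, h2⟩ := ih
    refine ⟨?_, ?_⟩
    · rw [Function.iterate_succ_apply', h1, hg', hΦ _ h2, Function.iterate_succ_apply']
    · rw [Function.iterate_succ_apply']
      exact hX _ h2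

end iter

section man

variable {n : ℕ} {N : Type u} [TopologicalSpace N]

theorem exists_nbhd [T2Space N] [CompactSpace N] {Q : Set N} (hQ : Q.Finite) (p : N) :
    ∃ O : Set N, IsOpen O ∧ p ∈ O ∧ ∀ q ∈ Q, q ≠ p → q ∉ closure O := by
  have h1 : (Q \ {p})ᶜ ∈ 𝓝 p :=
    (hQ.subset sdiff_subset).isClosed.isOpen_compl.mem_nhds fun h => h.2 rfl
  obtain ⟨t, ht, htc, htQ⟩ := exists_mem_nhds_isClosed_subset h1
  refine ⟨interior t, isOpen_interior, mem_interior_iff_mem_nhds.2 ht, fun q hq hqp hcon => ?_⟩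
  exact htQ (closure_minimal interior_subset htc hcon) ⟨hq, hqp⟩

variable [ChartedSpace (V n) N]

omit [ChartedSpace (V n) N] in
theorem fixes {ψ : OpenPartialHomeomorph N (V n)} {p : N} (hp : p ∈ ψ.source) {Φ : N → N}
    {ρ : ℝ} (hρ : 0 < ρ) {T : V n →L[ℝ] V n}
    (h : ∀ y ∈ ψ.source, ‖ψ y - ψ p‖ < ρ → Φ y ∈ ψ.source ∧ ψ (Φ y) = ψ y + T (ψ y - ψ p)) :
    Φ p = p := by
  obtain ⟨h1, h2⟩ := h p hp (by simpa using hρ)
  refine ψ.injOn h1 hp ?_
  rw [h2, sub_self, map_zero, add_zero]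

theorem iter_contMDiff {r : ℕ∞} (g : DiffM n N r) (k : ℕ) :
    ContMDiff (𝓡 n) (𝓡 n) r (g^[k]) := by
  induction k with
  | zero => exact contMDiff_id
  | succ k ih =>
    rw [Function.iterate_succ]
    exact ih.comp g.contMDiff

theorem iter_cont {r : ℕ∞} (g : DiffM n N r) (k : ℕ) : Continuous (g^[k]) :=
  g.continuous.iterate k

theorem chart_c1 [IsManifold (𝓡 n) ∞ N] {r : ℕ∞} (hr : 1 ≤ r) (g : DiffM n N r) (k : ℕ)
    {ψ : OpenPartialHomeomorph N (V n)} (hψ : ψ ∈ IsManifold.maximalAtlas (𝓡 n) ∞ N)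
    {x : N} (hx : x ∈ ψ.source) (hx' : g^[k] x ∈ ψ.source) :
    ContDiffAt ℝ 1 (fun v : V n => ψ (g^[k] (ψ.symm v))) (ψ x) := by
  have hr' : (1 : WithTop ℕ∞) ≤ r := by exact_mod_cast hr
  rw [← contMDiffAt_iff_contDiffAt]
  have h3 : ContMDiffAt (𝓡 n) (𝓡 n) 1 ψ.symm (ψ x) :=
    ((contMDiffOn_symm_of_mem_maximalAtlas hψ _ (ψ.map_source hx)).contMDiffAt
      (ψ.open_target.mem_nhds (ψ.map_source hx))).of_le (by exact_mod_cast le_top)
  have h6 : ContMDiffAt (𝓡 n) (𝓡 n) 1 (g^[k]) (ψ.symm (ψ x)) :=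
    ((iter_contMDiff g k) _).of_le hr'
  have h8 : ContMDiffAt (𝓡 n) (𝓡 n) 1 ψ (g^[k] (ψ.symm (ψ x))) := by
    rw [ψ.left_inv hx]
    exact ((contMDiffOn_of_mem_maximalAtlas hψ _ hx').contMDiffAt
      (ψ.open_source.mem_nhds hx')).of_le (by exact_mod_cast le_top)
  exact ContMDiffAt.comp (g := ψ) (f := fun v : V n => g^[k] (ψ.symm v)) _ h8
    (ContMDiffAt.comp (g := g^[k]) (f := ψ.symm) _ h6 h3)

omit [ChartedSpace (V n) N] in
theorem tendsto_symm {ψ : OpenPartialHomeomorph N (V n)} {p : N} (hp : p ∈ ψ.source) :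
    Tendsto ψ.symm (𝓝 (ψ p)) (𝓝 p) := by
  have h := (ψ.continuousAt_symm (ψ.map_source hp)).tendsto
  rwa [ψ.left_inv hp] at h

/-- the derivative of a multiple of a period -/
theorem fderiv_mul {r : ℕ∞} (g : DiffM n N r) {ψ : OpenPartialHomeomorph N (V n)} {p : N}
    (hp : p ∈ ψ.source) {m : ℕ} (hm : g^[m] p = p) {A : V n →L[ℝ] V n}
    (hA : HasFDerivAt (fun v : V n => ψ (g^[m] (ψ.symm v))) A (ψ p)) (l : ℕ) :
    fderiv ℝ (fun v : V n => ψ (g^[m * l] (ψ.symm v))) (ψ p) = A ^ l := by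
  set F : V n → V n := fun v => ψ (g^[m] (ψ.symm v)) with hF
  have hFa : F (ψ p) = ψ p := by
    simp only [hF, ψ.left_inv hp, hm]
  have hper : ∀ i, g^[m * i] p = p := by
    intro i
    have h1 : Function.IsPeriodicPt g (m * i) p := Function.IsPeriodicPt.mul_const hm i
    exact h1
  have hsrc : ∀ i, ∀ᶠ v in 𝓝 (ψ p), g^[m * i] (ψ.symm v) ∈ ψ.source := by
    intro i
    have h1 : Tendsto (fun v => g^[m * i] (ψ.symm v)) (𝓝 (ψ p)) (𝓝 (g^[m * i] p)) :=
      ((iter_cont g (m * i)).tendsto p).comp (tendsto_symm hp)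
    rw [hper i] at h1
    exact h1.eventually (ψ.open_source.mem_nhds hp)
  have hit : ∀ i, ∀ᶠ v in 𝓝 (ψ p), F^[i] v = ψ (g^[m * i] (ψ.symm v)) := by
    intro i
    induction i with
    | zero =>
      filter_upwards [ψ.open_target.mem_nhds (ψ.map_source hp)] with v hv
      simp [ψ.right_inv hv]
    | succ i ih =>
      filter_upwards [ih, hsrc i] with v h1 h2
      rw [Function.iterate_succ_apply', h1]
      simp only [hF]
      rw [ψ.left_inv h2, ← Function.iterate_add_apply, mul_add, mul_one, add_comm]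
  have h1 := (hA.iterate hFa l).congr_of_eventuallyEq ((hit l).mono fun v hv => hv.symm)
  exact h1.fderiv

/-- the derivative of a map composed with a linear perturbation -/
theorem fderiv_pert {F F1 : V n → V n} {a : V n} (hF : DifferentiableAt ℝ F a)
    {T : V n →L[ℝ] V n} (h : ∀ᶠ v in 𝓝 a, F1 v = F (v + T (v - a))) :
    fderiv ℝ F1 a = (fderiv ℝ F a) ∘L (ContinuousLinearMap.id ℝ (V n) + T) := by
  have h1 : HasFDerivAt (fun v : V n => v + T (v - a)) (ContinuousLinearMap.id ℝ (V n) + T) a := by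
    have h2 : HasFDerivAt (fun v : V n => T (v - a)) T a := by
      have h3 : HasFDerivAt (fun v : V n => v - a) (ContinuousLinearMap.id ℝ (V n)) a :=
        (hasFDerivAt_id a).sub_const a
      have h4 := HasFDerivAt.comp (g := fun w => T w) (f := fun v : V n => v - a) a
        (T.hasFDerivAt (x := a - a)) h3
      rwa [ContinuousLinearMap.comp_id] at h4
    exact (hasFDerivAt_id a).add h2
  have h5 : a + T (a - a) = a := by rw [sub_self, map_zero, add_zero]
  have h6 : HasFDerivAt F (fderiv ℝ F a) (a + T (a - a)) := by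
    rw [h5]
    exact hF.hasFDerivAt
  have h7 : HasFDerivAt (fun v : V n => F (v + T (v - a)))
      ((fderiv ℝ F a) ∘L (ContinuousLinearMap.id ℝ (V n) + T)) a :=
    HasFDerivAt.comp (g := F) (f := fun v : V n => v + T (v - a)) a h6 h1
  exact (h7.congr_of_eventuallyEq h).fderiv

end man

theorem main (hE : S_EIG) (hA : S_ALG) (hB : S_BIF) (hL : S_LP.{u}) : S_F2.{u} := by
  intro n N _ _ _ _ _ r hr U hU hfin hcard g hgU p hpP m' hm' hpm' ψ hψ hpψ
  -- the minimal period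
  set m : ℕ := Function.minimalPeriod g p with hmdef
  have hm1 : 1 ≤ m := Function.IsPeriodicPt.minimalPeriod_pos hm' hpm'
  have hpm : g^[m] p = p := Function.isPeriodicPt_minimalPeriod g p
  obtain ⟨l, hl⟩ : m ∣ m' := Function.IsPeriodicPt.minimalPeriod_dvd hpm'
  have hl1 : 1 ≤ l := by
    rcases Nat.eq_zero_or_pos l with h | h
    · rw [h, mul_zero] at hl
      omega
    · exact h
  have hmin : ∀ i, 0 < i → i < m → g^[i] p ≠ p := fun i hi him h =>
    Function.not_isPeriodicPt_of_pos_of_lt_minimalPeriod hi.ne' him h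
  set a : V n := ψ p with hadef
  have hat : a ∈ ψ.target := ψ.map_source hpψ
  have hsa : ψ.symm a = p := ψ.left_inv hpψ
  set F : V n → V n := fun v => ψ (g^[m] (ψ.symm v)) with hF
  have hFc : ContDiffAt ℝ 1 F a := chart_c1 hr g m hψ hpψ (by rw [hpm]; exact hpψ)
  have hFd : DifferentiableAt ℝ F a := hFc.differentiableAt (by norm_num)
  rw [hl, fderiv_mul g hpψ hpm hFd.hasFDerivAt l]
  refine noBdd_pow ?_ hl1
  by_contra hnb
  set A : V n →L[ℝ] V n := fderiv ℝ F a with hAdef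
  have hEig : EigOne A := (hE n A).1 hnb
  -- the first perturbation
  have hsym := tendsto_symm hpψ
  rw [← hadef] at hsym
  obtain ⟨O₁, hO₁, hpO₁, hO₁Q⟩ := exists_nbhd
    ((Finset.finite_toSet (Finset.range m)).image fun i => g^[i] p) p
  obtain ⟨κ₁, hκ₁, ρ₁, hρ₁, hLP₁⟩ := hL n N r hr g U hU hgU ψ hψ p hpψ O₁ hO₁ hpO₁
  obtain ⟨T, b, j, W, w₀, 𝒮, hT, hRes⟩ := hA n A hEig κ₁ hκ₁
  obtain ⟨Φ₁, g₁, hg₁U, hg₁, hΦ₁O, hΦ₁c⟩ := hLP₁ T hT
  have hΦ₁p : Φ₁ p = p := fixes hpψ hρ₁ hΦ₁c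
  have horb : ∀ i, g^[i] p ∈ (fun i => g^[i] p) '' (Finset.range m : Set ℕ) := by
    intro i
    refine ⟨i % m, by simpa using Nat.mod_lt i hm1, ?_⟩
    exact Function.IsPeriodicPt.iterate_mod_apply hpm i
  have hg₁p : ∀ i, g₁^[i] p = g^[i] p := by
    intro i
    refine (iter_fix (X := range fun i => g^[i] p) hg₁ ?_ ?_ ⟨0, rfl⟩ i).1
    · rintro _ ⟨i, rfl⟩
      exact ⟨i + 1, Function.iterate_succ_apply' g i p⟩
    · rintro _ ⟨i, rfl⟩
      show Φ₁ (g^[i] p) = g^[i] p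
      by_cases h : g^[i] p = p
      · rw [h]
        exact hΦ₁p
      · exact hΦ₁O _ fun hcon => hO₁Q _ (horb i) h (subset_closure hcon)
  have hmin₁ : ∀ i, 0 < i → i < m → g₁^[i] p ≠ p := fun i hi him => by
    rw [hg₁p]
    exact hmin i hi him
  have hpm₁ : g₁^[m] p = p := by rw [hg₁p, hpm]
  set F₁ : V n → V n := fun v => ψ (g₁^[m] (ψ.symm v)) with hF₁
  have hF₁c : ContDiffAt ℝ 1 F₁ a := chart_c1 hr g₁ m hψ hpψ (by rw [hpm₁]; exact hpψ)
  have hF₁F : ∀ᶠ v in 𝓝 a, F₁ v = F (v + T (v - a)) := by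
    have h1 : ∀ᶠ y in 𝓝 p, ∀ i ∈ Finset.range m, 0 < i → g^[i] (Φ₁ y) ∉ O₁ := by
      rw [Filter.eventually_all_finset]
      intro i hi
      by_cases hi0 : 0 < i
      · have h2 : Tendsto (fun y => g^[i] (Φ₁ y)) (𝓝 p) (𝓝 (g^[i] p)) := by
          have h3 := (((iter_cont g i).comp Φ₁.continuous).tendsto p)
          simp only [Function.comp, hΦ₁p] at h3
          exact h3
        have h4 : g^[i] p ∈ (closure O₁)ᶜ := hO₁Q _ (horb i) (hmin i hi0 (Finset.mem_range.1 hi))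
        filter_upwards [h2.eventually (isClosed_closure.isOpen_compl.mem_nhds h4)] with y hy _
        exact fun hcon => hy (subset_closure hcon)
      · exact Eventually.of_forall fun y h => absurd h hi0
    have h2 : ∀ᶠ v in 𝓝 a, ‖v - a‖ < ρ₁ := by
      filter_upwards [ball_mem_nhds a hρ₁] with v hv
      rwa [mem_ball_iff_norm] at hv
    filter_upwards [hsym.eventually h1, h2, ψ.open_target.mem_nhds hat] with v h3 h4 h5
    have h6 : ψ (ψ.symm v) = v := ψ.right_inv h5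
    obtain ⟨h7, h8⟩ := hΦ₁c (ψ.symm v) (ψ.map_target h5) (by rw [h6]; exact h4)
    rw [h6] at h8
    have h9 : Φ₁ (ψ.symm v) = ψ.symm (v + T (v - a)) := by
      rw [← h8, ψ.left_inv h7]
    simp only [hF₁, hF]
    rw [iter_near hg₁ hΦ₁O (fun i hi him => h3 i (Finset.mem_range.2 him) hi) m hm1 le_rfl, h9]
  have hA₁ : fderiv ℝ F₁ a = A ∘L (ContinuousLinearMap.id ℝ (V n) + T) := fderiv_pert hFd hF₁F
  -- the second perturbation
  have hb1 : 1 ≤ b := hRes.b1
  set k : ℕ := m * b with hk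
  have hk1 : 1 ≤ k := Nat.mul_pos hm1 hb1
  set X : Set N := {x | g₁^[k] x = x} with hX
  have hXfin : X.Finite := hfin g₁ hg₁U k hk1
  have hXinv : ∀ x ∈ X, g₁ x ∈ X := by
    intro x hx
    show g₁^[k] (g₁ x) = g₁ x
    rw [← Function.iterate_succ_apply, Function.iterate_succ_apply']
    exact congrArg g₁ hx
  have hpX : p ∈ X := by
    have h1 : Function.IsPeriodicPt g₁ (m * b) p := Function.IsPeriodicPt.mul_const hpm₁ b
    exact h1
  have horb₁ : ∀ i, g₁^[i] p ∈ X := by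
    intro i
    induction i with
    | zero => exact hpX
    | succ i ih =>
      rw [Function.iterate_succ_apply']
      exact hXinv _ ih
  obtain ⟨O₂, hO₂, hpO₂, hO₂Q⟩ := exists_nbhd hXfin p
  obtain ⟨κ₂, hκ₂, ρ₂, hρ₂, hLP₂⟩ := hL n N r hr g₁ U hU hg₁U ψ hψ p hpψ O₂ hO₂ hpO₂
  set R : V n → V n := fun v => F₁ (v + a) - a with hR
  have hF₁a : F₁ a = a := by
    simp only [hF₁, hsa, hpm₁]
    exact hadef.symm
  have hR0 : R 0 = 0 := by
    simp only [hR, zero_add, hF₁a, sub_self]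
  have hRc : ContDiffAt ℝ 1 R 0 := by
    have h1 : ContDiffAt ℝ 1 F₁ ((0 : V n) + a) := by rwa [zero_add]
    have h2 : ContDiffAt ℝ 1 (fun v : V n => v + a) 0 := by fun_prop
    have h3 : ContDiffAt ℝ 1 (fun v : V n => F₁ (v + a)) 0 :=
      ContDiffAt.comp (g := F₁) (f := fun v : V n => v + a) 0 h1 h2
    exact h3.sub contDiffAt_const
  have hRd : fderiv ℝ R 0 = A ∘L (ContinuousLinearMap.id ℝ (V n) + T) := by
    have h1 : HasFDerivAt F₁ (A ∘L (ContinuousLinearMap.id ℝ (V n) + T)) ((0 : V n) + a) := by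
      rw [zero_add, ← hA₁]
      exact (hF₁c.differentiableAt (by norm_num)).hasFDerivAt
    have h2 : HasFDerivAt (fun v : V n => v + a) (ContinuousLinearMap.id ℝ (V n)) 0 :=
      (hasFDerivAt_id (0 : V n)).add_const a
    have h3 := HasFDerivAt.comp (g := F₁) (f := fun v : V n => v + a) 0 h1 h2
    rw [ContinuousLinearMap.comp_id] at h3
    exact (h3.sub_const a).fderiv
  rw [← hRd] at hRes
  -- the neighbourhood
  have hV : ∀ᶠ v in 𝓝 a, v ∈ ψ.target ∧ ψ.symm v ∈ O₂ ∧ g₁^[m] (ψ.symm v) ∈ ψ.source ∧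
      ∀ i ∈ Finset.range m, 0 < i → g₁^[i] (ψ.symm v) ∉ O₂ := by
    have h1 : ∀ᶠ y in 𝓝 p, g₁^[m] y ∈ ψ.source := by
      have h2 := (iter_cont g₁ m).tendsto p
      rw [hpm₁] at h2
      exact h2.eventually (ψ.open_source.mem_nhds hpψ)
    have h3 : ∀ᶠ y in 𝓝 p, ∀ i ∈ Finset.range m, 0 < i → g₁^[i] y ∉ O₂ := by
      rw [Filter.eventually_all_finset]
      intro i hi
      by_cases hi0 : 0 < i
      · have h4 : g₁^[i] p ∈ (closure O₂)ᶜ :=
          hO₂Q _ (horb₁ i) (hmin₁ i hi0 (Finset.mem_range.1 hi))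
        filter_upwards [((iter_cont g₁ i).tendsto p).eventually
          (isClosed_closure.isOpen_compl.mem_nhds h4)] with y hy _
        exact fun hcon => hy (subset_closure hcon)
      · exact Eventually.of_forall fun y h => absurd h hi0
    filter_upwards [ψ.open_target.mem_nhds hat, hsym.eventually (hO₂.mem_nhds hpO₂),
      hsym.eventually h1, hsym.eventually h3] with v a1 a2 a3 a4
    exact ⟨a1, a2, a3, a4⟩
  obtain ⟨η, hη, hηV⟩ := Metric.eventually_nhds_iff.1 hV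
  have hS0 : 0 ≤ ‖𝒮‖ := ContinuousLinearMap.opNorm_nonneg 𝒮
  obtain ⟨ε, hε, hε1, hε2, hε3⟩ : ∃ ε : ℝ, 0 < ε ∧ ‖𝒮‖ * ε < κ₂ ∧ ε ≤ ρ₂ ∧
      ε * (1 + κ₂) < η := by
    refine ⟨min (min (κ₂ / (‖𝒮‖ + 1)) ρ₂) (η / (2 * (1 + κ₂))),
      lt_min (lt_min (by positivity) hρ₂) (by positivity), ?_, ?_, ?_⟩
    · have h1 : min (min (κ₂ / (‖𝒮‖ + 1)) ρ₂) (η / (2 * (1 + κ₂))) ≤ κ₂ / (‖𝒮‖ + 1) :=
        (min_le_left _ _).trans (min_le_left _ _)
      have h2 : ‖𝒮‖ * (κ₂ / (‖𝒮‖ + 1)) < κ₂ := by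
        rw [mul_div_assoc', div_lt_iff₀ (by positivity)]
        nlinarith
      exact lt_of_le_of_lt (mul_le_mul_of_nonneg_left h1 hS0) h2
    · exact (min_le_left _ _).trans (min_le_right _ _)
    · have h1 : min (min (κ₂ / (‖𝒮‖ + 1)) ρ₂) (η / (2 * (1 + κ₂))) ≤ η / (2 * (1 + κ₂)) :=
        min_le_right _ _
      have h2 : η / (2 * (1 + κ₂)) * (1 + κ₂) = η / 2 := by
        field_simp
      have h3 := mul_le_mul_of_nonneg_right h1 (by positivity : (0 : ℝ) ≤ 1 + κ₂)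
      rw [h2] at h3
      linarith
  obtain ⟨ζ, x, hζ, hx0, hxs, hxb⟩ := hB n R hR0 hRc b j W w₀ 𝒮 hRes ε hε
  have hSζ : ‖𝒮 ζ‖ < κ₂ := by
    refine lt_of_le_of_lt (𝒮.le_opNorm ζ) ?_
    exact lt_of_le_of_lt (mul_le_mul_of_nonneg_left hζ.le hS0) hε1
  obtain ⟨Φ₂, g₂, hg₂U, hg₂, hΦ₂O, hΦ₂c⟩ := hLP₂ (𝒮 ζ) hSζ
  have hΦ₂p : Φ₂ p = p := fixes hpψ hρ₂ hΦ₂c
  set P : V n → V n := fun v => R (v + 𝒮 ζ v) with hP
  -- one period
  have hnear : ∀ v : V n, ‖v‖ < ε → dist (v + a) a < η := by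
    intro v hv
    rw [dist_eq_norm, add_sub_cancel_right]
    nlinarith
  have hstep : ∀ v : V n, ‖v‖ < ε → g₂^[m] (ψ.symm (v + a)) = ψ.symm (P v + a) := by
    intro v hv
    have h1 := (hηV (hnear v hv)).1
    have h2 : ψ (ψ.symm (v + a)) = v + a := ψ.right_inv h1
    have h3 : ψ (ψ.symm (v + a)) - ψ p = v := by
      rw [h2, ← hadef, add_sub_cancel_right]
    obtain ⟨h4, h5⟩ := hΦ₂c (ψ.symm (v + a)) (ψ.map_target h1)
      (by rw [h3]; exact hv.trans_le hε2)
    rw [h3, h2] at h5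
    have h6 : Φ₂ (ψ.symm (v + a)) = ψ.symm (v + 𝒮 ζ v + a) := by
      have e : v + 𝒮 ζ v + a = v + a + 𝒮 ζ v := by abel
      rw [e, ← h5, ψ.left_inv h4]
    have h7 : dist (v + 𝒮 ζ v + a) a < η := by
      rw [dist_eq_norm, add_sub_cancel_right]
      have h8 : ‖𝒮 ζ v‖ ≤ κ₂ * ε := by
        refine ((𝒮 ζ).le_opNorm v).trans ?_
        exact mul_le_mul hSζ.le hv.le (norm_nonneg _) hκ₂.le
      have h9 := norm_add_le v (𝒮 ζ v)
      nlinarith
    obtain ⟨h8, -, h9, h10⟩ := hηV h7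
    have h11 : g₂^[m] (ψ.symm (v + a)) = g₁^[m] (ψ.symm (v + 𝒮 ζ v + a)) := by
      rw [← h6]
      refine iter_near hg₂ hΦ₂O (fun i hi him => ?_) m hm1 le_rfl
      rw [h6]
      exact h10 i (Finset.mem_range.2 him) hi
    rw [h11]
    have h12 : P v + a = ψ (g₁^[m] (ψ.symm (v + 𝒮 ζ v + a))) := by
      simp only [hP, hR, hF₁]
      abel
    rw [h12, ψ.left_inv h9]
  have hall : ∀ i ≤ b, g₂^[m * i] (ψ.symm (x + a)) = ψ.symm (P^[i] x + a) := by
    intro i
    induction i with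
    | zero => intro _; simp
    | succ i ih =>
      intro hi
      rw [mul_add, mul_one, add_comm, Function.iterate_add_apply, ih (by omega),
        hstep _ (hxs i (by omega)), Function.iterate_succ_apply']
  have hx0' : ‖x‖ < ε := hxs 0 (Nat.zero_le _)
  have hy : g₂^[k] (ψ.symm (x + a)) = ψ.symm (x + a) := by
    rw [hk, hall b le_rfl, hxb]
  -- the fixed points of `g₂^k`
  have hXfix : ∀ q ∈ X, Φ₂ q = q := by
    intro q hq
    by_cases h : q = p
    · rw [h]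
      exact hΦ₂p
    · exact hΦ₂O _ fun hcon => hO₂Q q hq h (subset_closure hcon)
  have hsub : X ⊆ {x | g₂^[k] x = x} := by
    intro q hq
    show g₂^[k] q = q
    rw [(iter_fix hg₂ hXinv hXfix hq k).1]
    exact hq
  have heq : X = {x | g₂^[k] x = x} :=
    Set.eq_of_subset_of_ncard_le hsub (hcard g₂ hg₂U g₁ hg₁U k hk1).le (hfin g₂ hg₂U k hk1)
  have hyX : ψ.symm (x + a) ∈ X := by
    rw [heq]
    exact hy
  obtain ⟨h1, h2, -, -⟩ := hηV (hnear x hx0')
  have h3 : ψ.symm (x + a) = p := by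
    by_contra h
    exact hO₂Q _ hyX h (subset_closure h2)
  apply hx0
  have h4 : ψ (ψ.symm (x + a)) = x + a := ψ.right_inv h1
  rw [h3, ← hadef] at h4
  have h5 : x = (x + a) - a := by abel
  rw [h5, ← h4, sub_self]

end Pool.Agent.Y504.CO.F2c
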