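import Pool.Agent.Y504.CO.Stm2
import Pool.Agent.TH80.OMS.Push

/-!
# Perturbations which move two points
-/

set_option autoImplicit false
set_option linter.unusedSectionVars false

open scoped Manifold ContDiff Topology
open Filter Set Metric

universe u

namespace Pool.Agent.Y504.CO.P2

open Pool.Agent.H718R2.G Pool.Agent.W564.SC Pool.Agent.TH290.CL Pool.Agent.TH80.CLX
open Pool.Agent.TH80.OMS

section

variable {n : ℕ} {N : Type u} [TopologicalSpace N] [T2Space N] [ChartedSpace (V n) N]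
  [IsManifold (𝓡 n) ∞ N]

/-- the transplanted diffeomorphism -/
theorem tr_diff {χ : OpenPartialHomeomorph N (V n)} {z : N} (hg : GoodChart n N χ z)
    {j : ℕ} {F F' : V j × V n → V n} (hF : LFam j n F F') :
    ContMDiff ((𝓡 j).prod (𝓡 n)) (𝓡 n) ∞ (fun q : V j × N => tr χ F q.1 q.2) ∧
    ContMDiff ((𝓡 j).prod (𝓡 n)) (𝓡 n) ∞ (fun q : V j × N => tr χ F' q.1 q.2) ∧
    (∀ x y, tr χ F' x (tr χ F x y) = y) ∧ (∀ x y, tr χ F x (tr χ F' x y) = y) := by
  have hA : Metric.closedBall (0 : V n) (1 / 2) ⊆ χ.target :=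
    (Metric.closedBall_subset_closedBall (by norm_num)).trans hg.ball
  have hcl : IsClosed (χ.symm '' Metric.closedBall (0 : V n) (1 / 2)) :=
    ((isCompact_closedBall _ _).image_of_continuousOn
      (χ.continuousOn_symm.mono hA)).isClosed
  have h1 := tr_smooth hg.mem hA hcl hF.inv hF.smooth hF.supp
  have h2 := tr_smooth hg.mem hA hcl hF.inv' hF.smooth' hF.supp'
  exact ⟨h1, h2, fun x y => tr_inv hA hF.inv hF.supp x y,
    fun x y => tr_inv hA hF.inv' hF.supp' x y⟩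

end

theorem main : S_P2.{u} := by
  intro n N _ _ _ _ _ r hr f U hU hfU w s O O' hO hO' hw hs hdis
  obtain ⟨χ, hχ, hχO⟩ := small_chart (n := n) w O hO hw
  obtain ⟨χ', hχ', hχO'⟩ := small_chart (n := n) s O' hO' hs
  obtain ⟨F, F', κ, hκ, hF, hFm⟩ := trans_family n
  obtain ⟨hs1, hs1', hi1, hi1'⟩ := tr_diff hχ hF
  obtain ⟨hs2, hs2', hi2, hi2'⟩ := tr_diff hχ' hF
  have hr' : ((r : ℕ∞) : WithTop ℕ∞) ≤ ∞ := by exact_mod_cast le_top
  have c1 : ∀ x : V n, ContMDiff (𝓡 n) (𝓡 n) ∞ (tr χ F x) := fun x =>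
    hs1.comp (contMDiff_const.prodMk contMDiff_id)
  have c1' : ∀ x : V n, ContMDiff (𝓡 n) (𝓡 n) ∞ (tr χ F' x) := fun x =>
    hs1'.comp (contMDiff_const.prodMk contMDiff_id)
  have c2 : ∀ x : V n, ContMDiff (𝓡 n) (𝓡 n) ∞ (tr χ' F x) := fun x =>
    hs2.comp (contMDiff_const.prodMk contMDiff_id)
  have c2' : ∀ x : V n, ContMDiff (𝓡 n) (𝓡 n) ∞ (tr χ' F' x) := fun x =>
    hs2'.comp (contMDiff_const.prodMk contMDiff_id)
  let Ψ : V n × V n → DiffM n N r := fun x =>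
    ⟨⟨fun y => tr χ F x.1 (tr χ' F x.2 y), fun y => tr χ' F' x.2 (tr χ F' x.1 y),
      fun y => by
        show tr χ' F' x.2 (tr χ F' x.1 (tr χ F x.1 (tr χ' F x.2 y))) = y
        rw [hi1, hi2], fun y => by
        show tr χ F x.1 (tr χ' F x.2 (tr χ' F' x.2 (tr χ F' x.1 y))) = y
        rw [hi2', hi1']⟩,
      ((c1 x.1).comp (c2 x.2)).of_le hr', ((c2' x.2).comp (c1' x.1)).of_le hr'⟩
  have hΨ : ∀ x y, Ψ x y = tr χ F x.1 (tr χ' F x.2 y) := fun x y => rfl
  have z1 : ∀ (χ : OpenPartialHomeomorph N (V n)) (y : N), tr χ F 0 y = y := by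
    intro χ y
    by_cases hy : y ∈ χ.source
    · rw [tr_source hy, hF.zero, χ.left_inv hy]
    · exact tr_not_source hy
  have hfam : IsFam n N r (fun x : V n × V n => (Ψ x).trans f) := by
    intro y
    have h1 : ContMDiff (𝓘(ℝ, V n × V n).prod (𝓡 n)) (𝓡 n) ∞
        (fun q : (V n × V n) × N => tr χ' F q.1.2 q.2) := by
      have e1 : ContMDiff (𝓘(ℝ, V n × V n).prod (𝓡 n)) ((𝓡 n).prod (𝓡 n)) ∞
          (fun q : (V n × V n) × N => (q.1.2, q.2)) := by
        refine ContMDiff.prodMk ?_ contMDiff_snd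
        exact (contDiff_snd.contMDiff).comp contMDiff_fst
      exact hs2.comp e1
    have h2 : ContMDiff (𝓘(ℝ, V n × V n).prod (𝓡 n)) (𝓡 n) ∞
        (fun q : (V n × V n) × N => tr χ F q.1.1 (tr χ' F q.1.2 q.2)) := by
      have e1 : ContMDiff (𝓘(ℝ, V n × V n).prod (𝓡 n)) ((𝓡 n).prod (𝓡 n)) ∞
          (fun q : (V n × V n) × N => (q.1.1, tr χ' F q.1.2 q.2)) := by
        refine ContMDiff.prodMk ?_ h1
        exact (contDiff_fst.contMDiff).comp contMDiff_fst
      exact hs1.comp e1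
    exact (f.contMDiff.comp (h2.of_le hr')).contMDiffAt
  have h0 : (Ψ 0).trans f = f := by
    ext y
    show f (tr χ F 0 (tr χ' F 0 y)) = f y
    rw [z1, z1]
  have h0U : (fun x : V n × V n => (Ψ x).trans f) 0 ∈ U := by
    show (Ψ 0).trans f ∈ U
    rw [h0]
    exact hfU
  obtain ⟨κ₁, hκ₁, hmem⟩ := fam_mem r hr (fun x : V n × V n => (Ψ x).trans f) hfam w U hU h0U
  set c : ℝ := min (min κ κ₁) (1 / 4) with hc
  have hc0 : 0 < c := by rw [hc]; positivity
  have hw0 : χ w = 0 := hχ.zero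
  have hs0 : χ' s = 0 := hχ'.zero
  refine ⟨{y | y ∈ χ.source ∧ ‖χ y‖ < c}, ?_, {y | y ∈ χ'.source ∧ ‖χ' y‖ < c}, ?_, ?_⟩
  · refine inter_mem (χ.open_source.mem_nhds hχ.src) ?_
    have h1 : ContinuousAt (fun y => ‖χ y‖) w := (χ.continuousAt hχ.src).norm
    have k1 : ‖χ w‖ < c := by rw [hw0, norm_zero]; exact hc0
    exact h1.eventually (gt_mem_nhds k1)
  · refine inter_mem (χ'.open_source.mem_nhds hχ'.src) ?_
    have h1 : ContinuousAt (fun y => ‖χ' y‖) s := (χ'.continuousAt hχ'.src).norm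
    have k1 : ‖χ' s‖ < c := by rw [hs0, norm_zero]; exact hc0
    exact h1.eventually (gt_mem_nhds k1)
  rintro w' ⟨hw'1, hw'2⟩ s' ⟨hs'1, hs'2⟩
  set x : V n × V n := (χ w', -χ' s') with hx
  have hxn : ‖x‖ < κ₁ := by
    rw [hx, Prod.norm_def, norm_neg]
    exact max_lt (hw'2.trans_le ((min_le_left _ _).trans (min_le_right _ _)))
      (hs'2.trans_le ((min_le_left _ _).trans (min_le_right _ _)))
  refine ⟨(Ψ x).toHomeomorph, (Ψ x).trans f, hmem x hxn, fun y => rfl, ?_, ?_, ?_⟩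
  · show tr χ F (χ w') (tr χ' F (-χ' s') w) = w'
    have hn : w ∉ χ'.source := fun h => Set.disjoint_left.1 hdis hw (hχO' h)
    rw [tr_not_source hn, tr_source hχ.src, hw0, hFm _ _ (hw'2.trans_le
      ((min_le_left _ _).trans (min_le_left _ _))) (by rw [norm_zero]; norm_num), zero_add,
      χ.left_inv hw'1]
  · show tr χ F (χ w') (tr χ' F (-χ' s') s') = s
    have hn : s ∉ χ.source := fun h => Set.disjoint_left.1 hdis (hχO h) hs
    have e : tr χ' F (-χ' s') s' = s := by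
      have k1 : ‖-χ' s'‖ < κ := by
        rw [norm_neg]
        exact hs'2.trans_le ((min_le_left _ _).trans (min_le_left _ _))
      rw [tr_source hs'1, hFm _ _ k1 (hs'2.trans_le (min_le_right _ _)),
        add_neg_cancel, ← hs0, χ'.left_inv hχ'.src]
    rw [e, tr_not_source hn]
  · intro y hy hy'
    show tr χ F (χ w') (tr χ' F (-χ' s') y) = y
    rw [tr_not_source (fun h => hy' (hχO' h)), tr_not_source (fun h => hy (hχO h))]

end Pool.Agent.Y504.CO.P2
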