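import Pool.Agent.Y504.CO.Rob
import Pool.Agent.Y504.CO.Fin
import Pool.Agent.Y504.CO.LF
import Pool.Agent.Y504.CO.P2
import Pool.Agent.Y504.CO.NC2
import Pool.Agent.Y504.CO.TR2
import Pool.Agent.Y504.CO.K7
import Pool.Agent.Y832.CO.LB
import Pool.Agent.Y832.CO.LIN
import Pool.Agent.Y832.CO.ALG
import Pool.Agent.Y832.CO.LP
import Pool.Agent.Y117.CO.NW
import Pool.Agent.Y614.CO.HS
import Pool.Agent.Y38.CO.GEN
import Pool.Agent.Y38.CO.EIG
import Pool.Agent.Y286.CO.DIM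
import Pool.Agent.Y286.CO.ISO
import Pool.Agent.Y329.CO.BIF
import Pool.Agent.Y96.CO.T0
import Pool.Agent.Y504.CO.F2c
import Pool.Agent.Y417.CO.TRK
import Pool.Agent.Y863.CO.TR
import Pool.Agent.Y863.CO.LINK
import Pool.Agent.Y333.CO.K6
import Pool.Agent.Y948.CO.K5
import Pool.Agent.Y987.CO.K3

/-!
# Diffeomorphisms all of whose recurrent points are periodic: the parts put together
-/

set_option autoImplicit false
set_option linter.unusedSectionVars false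

open scoped Manifold ContDiff Topology
open Filter Set Metric

universe u

namespace Pool.Agent.Y504.CO.Plug

open Pool.Agent.H718R2.G Pool.Agent.TH80.OMS Pool.Agent.Y504.CO

theorem hLB : S_LB := Pool.Agent.Y832.CO.LB.main
theorem hNW : S_NW := Pool.Agent.Y117.CO.NW.main
theorem hHS : S_HS := Pool.Agent.Y614.CO.HS.main hLB hNW
theorem hGEN : S_GEN := Pool.Agent.Y38.CO.GEN.main
theorem hDIM : S_DIM := Pool.Agent.Y286.CO.DIM.main
theorem hLIN : S_LIN := Pool.Agent.Y832.CO.LIN.main hGEN hDIM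
theorem hEIG : S_EIG := Pool.Agent.Y38.CO.EIG.main
theorem hALG : S_ALG := Pool.Agent.Y832.CO.ALG.main
theorem hBIF : S_BIF := Pool.Agent.Y329.CO.BIF.main hNW
theorem hT0 : S_T0.{u} := Pool.Agent.Y96.CO.T0.main
theorem hTRK : S_TRK.{u} := Pool.Agent.Y417.CO.TRK.main
theorem hLP : S_LP.{u} := Pool.Agent.Y832.CO.LP.main Pool.Agent.Y504.CO.LF.main
theorem hP2 : S_P2.{u} := Pool.Agent.Y504.CO.P2.main
theorem hISO : S_ISO.{u} := Pool.Agent.Y286.CO.ISO.main hLB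
theorem hF2 : S_F2.{u} := Pool.Agent.Y504.CO.F2c.main hEIG hALG hBIF hLP
theorem hTR2 : S_TR2.{u} := Pool.Agent.Y504.CO.TR2.main hLIN hLP hTRK
theorem hLINK : S_LINK.{u} := Pool.Agent.Y863.CO.Link.main hHS hLIN hTRK
theorem hNC2 : S_NC2.{u} := Pool.Agent.Y504.CO.NC2.main hP2 hLINK
theorem hK3 : S_K3.{u} := Pool.Agent.Y987.CO.K3.main hT0
theorem hK5 : S_K5.{u} := Pool.Agent.Y948.CO.K5.main
theorem hK6 : S_K6.{u} := Pool.Agent.Y333.CO.main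
theorem hK7 : S_K7.{u} := Pool.Agent.Y504.CO.K7.main hHS hK6

section

variable {n : ℕ} {N : Type u} [TopologicalSpace N] [T2Space N] [CompactSpace N]
  [ChartedSpace (V n) N] [IsManifold (𝓡 n) ∞ N]

/-- Robust absence of nonperiodic recurrent points. -/
theorem robust_main' (hK1 : S_K1.{u}) (hK2 : S_K2.{u}) (hK4 : S_K4.{u}) {r : ℕ∞} (hr : 1 ≤ r)
    {F : DiffM n N r} (U : Set (DiffM n N r)) (hU : IsOpen[strongTop n N r] U)
    (hR : ∀ g ∈ U, Rec g ⊆ Per g) (hFU : F ∈ U) (hH : ∀ p ∈ Per F, HypAt n F p) :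
    (Omega F).Finite ∧ Omega F ⊆ Per F ∧ (∀ p ∈ Per F, HypAt n F p) ∧ ∀ k, ¬ Cyc F k :=
  rob hK1 hK2 hK3 hK4 hK5 hK7 hISO hTR2 hNC2 hr U hU hR hFU hH

/-- `Ω`-stable, and all recurrent points are periodic. -/
theorem rec_main' (hK1 : S_K1.{u}) (hK2 : S_K2.{u}) (hK4 : S_K4.{u}) {r : ℕ∞} (hr : 1 ≤ r)
    {F : DiffM n N r} (hF : OmegaStable n N r F) (hR : Rec F ⊆ Per F) :
    (Omega F).Finite ∧ Omega F ⊆ Per F ∧ (∀ p ∈ Per F, HypAt n F p) ∧ ∀ k, ¬ Cyc F k :=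
  recm hK1 hK2 hK3 hK4 hK5 hK7 hISO hTR2 hNC2 hF2 hr hF hR

/-- From `HypAt` to eigenvalues. -/
theorem hyp_charpoly {r : ℕ∞} (hr : 1 ≤ r) (F : DiffM n N r) {p : N} (hp : p ∈ Per F)
    (h : HypAt n F p) : IsHyperbolicPer n F p := by
  refine ⟨hp, fun m hm hmp ψ hψ hpψ => ?_⟩
  have h1 : ContDiffAt ℝ 1 (fun v => ψ (F^[m] (ψ.symm v))) (ψ p) :=
    Pool.Agent.Y863.CO.cda hr F m hψ hpψ (by rw [hmp]; exact hpψ)
  refine ⟨fderiv ℝ (fun v => ψ (F^[m] (ψ.symm v))) (ψ p),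
    (h1.differentiableAt one_ne_zero).hasFDerivAt, fun μ hμ hμ1 => ?_⟩
  exact (hEIG n _).2 ⟨μ, hμ1, hμ⟩ (h m hm hmp ψ hψ hpψ)

end

end Pool.Agent.Y504.CO.Plug
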