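import Pool.Agent.Y504.CO.Stm

/-!
# `Ω`-stable diffeomorphisms with a countable nonwandering set: statements of the parts on manifolds
-/

set_option autoImplicit false

open scoped Manifold ContDiff Topology
open Filter Set Metric

universe u

namespace Pool.Agent.Y504.CO

open Pool.Agent.H718R2.G Pool.Agent.TH80.OMS

/-- The periodic point `p` of `g` is hyperbolic. -/
def HypAt (n : ℕ) {N : Type u} [TopologicalSpace N] [ChartedSpace (V n) N] (g : N → N) (p : N) :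
    Prop :=
  ∀ m : ℕ, 1 ≤ m → g^[m] p = p → ∀ ψ ∈ IsManifold.maximalAtlas (𝓡 n) ∞ N, p ∈ ψ.source →
    NoBdd (fun _ => fderiv ℝ (fun v => ψ (g^[m] (ψ.symm v))) (ψ p))

/-- A transverse homoclinic orbit, seen in the chart `ψ`. -/
structure HomM {n : ℕ} {N : Type u} [TopologicalSpace N] (g : N → N)
    (ψ : OpenPartialHomeomorph N (V n)) (m L : ℕ) (ζ : ℤ → V n) : Prop where
  m1 : 1 ≤ m
  L1 : 1 ≤ L
  zero_mem : (0 : V n) ∈ ψ.target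
  mem : ∀ i, ζ i ∈ ψ.target
  ne : ζ 0 ≠ 0
  per : g^[m] (ψ.symm 0) = ψ.symm 0
  step : ∀ i, i ≠ 0 → g^[m] (ψ.symm (ζ i)) = ψ.symm (ζ (i + 1))
  jump : g^[L] (ψ.symm (ζ 0)) = ψ.symm (ζ 1)
  data : HomData (fun v => ψ (g^[m] (ψ.symm v))) (fun v => ψ (g^[L] (ψ.symm v))) ζ

/-- MH: a transverse homoclinic orbit makes the nonwandering set uncountable. -/
def S_MH : Prop :=
  ∀ (n : ℕ) (N : Type u) [TopologicalSpace N] [T2Space N] [CompactSpace N] (g : N → N),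
    Continuous g → ∀ (ψ : OpenPartialHomeomorph N (V n)) (m L : ℕ) (ζ : ℤ → V n),
    HomM g ψ m L ζ → ¬ (Omega g).Countable

/-- TRK: phases of orbits converging to a periodic orbit. -/
def S_TRK : Prop :=
  ∀ (X : Type u) [TopologicalSpace X] [T2Space X] [CompactSpace X] (f : X → X), Continuous f →
    Function.Injective f → ∀ (p : X) (m : ℕ), 1 ≤ m → f^[m] p = p →
    (∀ s, OmegaTo f s p → ∀ A : ℕ, ∃ a ≥ A,
      Tendsto (fun i : ℕ => f^[a + m * i] s) atTop (𝓝 p)) ∧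
    (∀ x : ℤ → X, (∀ i, f (x i) = x (i + 1)) →
      (∀ O : Set X, IsOpen O → orb f p ⊆ O → ∀ᶠ i : ℤ in atBot, x i ∈ O) → ∀ A : ℕ, ∃ b ≥ A,
      Tendsto (fun i : ℕ => x (-(b : ℤ) - m * i)) atTop (𝓝 p))

/-- LP: linear perturbations near a point. -/
def S_LP : Prop :=
  ∀ (n : ℕ) (N : Type u) [TopologicalSpace N] [T2Space N] [CompactSpace N] [ChartedSpace (V n) N]
    [IsManifold (𝓡 n) ∞ N] (r : ℕ∞), 1 ≤ r → ∀ (f : DiffM n N r) (U : Set (DiffM n N r)),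
    IsOpen[strongTop n N r] U → f ∈ U → ∀ ψ ∈ IsManifold.maximalAtlas (𝓡 n) ∞ N, ∀ z ∈ ψ.source,
    ∀ O : Set N, IsOpen O → z ∈ O → ∃ κ : ℝ, 0 < κ ∧ ∃ ρ : ℝ, 0 < ρ ∧
    ∀ T : V n →L[ℝ] V n, ‖T‖ < κ → ∃ (Φ : N ≃ₜ N) (g : DiffM n N r), g ∈ U ∧
      (∀ y, g y = f (Φ y)) ∧ (∀ y, y ∉ O → Φ y = y) ∧
      ∀ y ∈ ψ.source, ‖ψ y - ψ z‖ < ρ → Φ y ∈ ψ.source ∧ ψ (Φ y) = ψ y + T (ψ y - ψ z)

/-- P2: perturbations which move two points. -/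
def S_P2 : Prop :=
  ∀ (n : ℕ) (N : Type u) [TopologicalSpace N] [T2Space N] [CompactSpace N] [ChartedSpace (V n) N]
    [IsManifold (𝓡 n) ∞ N] (r : ℕ∞), 1 ≤ r → ∀ (f : DiffM n N r) (U : Set (DiffM n N r)),
    IsOpen[strongTop n N r] U → f ∈ U → ∀ (w s : N) (O O' : Set N), IsOpen O → IsOpen O' → w ∈ O →
    s ∈ O' → Disjoint O O' → ∃ W ∈ 𝓝 w, ∃ W' ∈ 𝓝 s, ∀ w' ∈ W, ∀ s' ∈ W',
    ∃ (Φ : N ≃ₜ N) (g : DiffM n N r), g ∈ U ∧ (∀ y, g y = f (Φ y)) ∧ Φ w = w' ∧ Φ s' = s ∧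
      ∀ y, y ∉ O → y ∉ O' → Φ y = y

/-- ISO: hyperbolic periodic orbits are isolated. -/
def S_ISO : Prop :=
  ∀ (n : ℕ) (N : Type u) [TopologicalSpace N] [T2Space N] [CompactSpace N] [ChartedSpace (V n) N]
    [IsManifold (𝓡 n) ∞ N] (r : ℕ∞), 1 ≤ r → ∀ (g : DiffM n N r) (p : N), p ∈ Per g →
    HypAt n g p → Isolated g p

/-- F2: if the number of the points of period `k` is finite and locally constant, then all periodic
points are hyperbolic. -/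
def S_F2 : Prop :=
  ∀ (n : ℕ) (N : Type u) [TopologicalSpace N] [T2Space N] [CompactSpace N] [ChartedSpace (V n) N]
    [IsManifold (𝓡 n) ∞ N] (r : ℕ∞), 1 ≤ r → ∀ U : Set (DiffM n N r),
    IsOpen[strongTop n N r] U → (∀ g ∈ U, ∀ k : ℕ, 1 ≤ k → {x | g^[k] x = x}.Finite) →
    (∀ g ∈ U, ∀ g' ∈ U, ∀ k : ℕ, 1 ≤ k →
      Set.ncard {x | g^[k] x = x} = Set.ncard {x | g'^[k] x = x}) →
    ∀ g ∈ U, ∀ p ∈ Per g, HypAt n g p

/-- HB: creation of a homoclinic orbit. -/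
def S_HB : Prop :=
  ∀ (n : ℕ) (N : Type u) [TopologicalSpace N] [T2Space N] [CompactSpace N] [ChartedSpace (V n) N]
    [IsManifold (𝓡 n) ∞ N] (r : ℕ∞), 1 ≤ r → ∀ (f : DiffM n N r) (U : Set (DiffM n N r)),
    IsOpen[strongTop n N r] U → f ∈ U → Out f → ∃ g ∈ U, ∃ p z, Homoclinic g p z

/-- TR: a homoclinic orbit becomes transverse after a small perturbation. -/
def S_TR : Prop :=
  ∀ (n : ℕ) (N : Type u) [TopologicalSpace N] [T2Space N] [CompactSpace N] [ChartedSpace (V n) N]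
    [IsManifold (𝓡 n) ∞ N] (r : ℕ∞), 1 ≤ r → ∀ U : Set (DiffM n N r),
    IsOpen[strongTop n N r] U → (∀ g ∈ U, ∀ p ∈ Per g, HypAt n g p) → ∀ g ∈ U, ∀ p z,
    Homoclinic g p z → ∃ g' ∈ U, ∃ (ψ : OpenPartialHomeomorph N (V n)) (m L : ℕ) (ζ : ℤ → V n),
      HomM g' ψ m L ζ

/-- LINK: orbits which pass near a hyperbolic periodic orbit. -/
def S_LINK : Prop :=
  ∀ (n : ℕ) (N : Type u) [TopologicalSpace N] [T2Space N] [CompactSpace N] [ChartedSpace (V n) N]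
    [IsManifold (𝓡 n) ∞ N] (r : ℕ∞), 1 ≤ r → ∀ (g : DiffM n N r) (p : N), p ∈ Per g →
    HypAt n g p → ∀ (s : N) (x : ℤ → N), OmegaTo g s p → s ∉ orb g p →
    (∀ i, g (x i) = x (i + 1)) →
    (∀ O : Set N, IsOpen O → orb g p ⊆ O → ∀ᶠ i : ℤ in atBot, x i ∈ O) → x 0 ∉ orb g p →
    ∀ O : Set N, IsOpen O → orb g p ⊆ O → (∀ i : ℕ, 1 ≤ i → g^[i] s ∈ O) →
    (∀ i : ℤ, i ≤ -1 → x i ∈ O) → ∀ W ∈ 𝓝 s, ∀ W' ∈ 𝓝 (x 0), ∃ s' ∈ W, ∃ k : ℕ, 1 ≤ k ∧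
      g^[k] s' ∈ W' ∧ ∀ i, 0 < i → i < k → g^[i] s' ∈ O

/-- `z` is on a connection from the orbit of `p` to the orbit of `p'`. -/
def Conn {X : Type u} [TopologicalSpace X] (f : X → X) (z p p' : X) : Prop :=
  z ∉ orb f p ∧ z ∉ orb f p' ∧ AlphaTo f z p ∧ OmegaTo f z p'

/-- A cycle of `k + 1` different periodic orbits (`k = 0`: a homoclinic orbit). -/
def Cyc {X : Type u} [TopologicalSpace X] (f : X → X) (k : ℕ) : Prop :=
  ∃ p z : ℕ → X, (∀ i ≤ k, p i ∈ Per f) ∧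
    (∀ i ≤ k, ∀ j ≤ k, i ≠ j → Disjoint (orb f (p i)) (orb f (p j))) ∧
    (∀ i < k, Conn f (z i) (p i) (p (i + 1))) ∧ Conn f (z k) (p k) (p 0)

/-- NC: no cycles. -/
def S_NC : Prop :=
  ∀ (n : ℕ) (N : Type u) [TopologicalSpace N] [T2Space N] [CompactSpace N] [ChartedSpace (V n) N]
    [IsManifold (𝓡 n) ∞ N] (r : ℕ∞), 1 ≤ r → ∀ U : Set (DiffM n N r),
    IsOpen[strongTop n N r] U → (∀ g ∈ U, ∀ p ∈ Per g, HypAt n g p) →
    (∀ g ∈ U, ∀ p z, ¬ Homoclinic g p z) → ∀ g ∈ U, ∀ k, ¬ Cyc g k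

end Pool.Agent.Y504.CO
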