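import Mathlib

/-!
# A nonempty countable open subset of a compact Hausdorff set contains an isolated point
-/

set_option autoImplicit false

open scoped Topology
open Filter Set

universe u

namespace Pool.Agent.Y504.CO.Bad

theorem exists_isolated {X : Type u} [TopologicalSpace X] [CompactSpace X] [T2Space X]
    {K C O : Set X} (hK : IsClosed K) (hC : IsClosed C) (hO : IsOpen O)
    (hne : (O ∩ (K \ C)).Nonempty) (hc : (O ∩ (K \ C)).Countable) :
    ∃ z ∈ K, z ∉ C ∧ z ∈ O ∧ ∃ W : Set X, IsOpen W ∧ z ∈ W ∧ ∀ y ∈ K, y ∈ W → y = z := by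
  have hCo : IsOpen (O ∩ Cᶜ) := hO.inter hC.isOpen_compl
  have : CompactSpace K := isCompact_iff_compactSpace.1 hK.isCompact
  let A : Set K := Subtype.val ⁻¹' (O ∩ Cᶜ)
  have hA : IsOpen A := hCo.preimage continuous_subtype_val
  have : LocallyCompactSpace A := hA.locallyCompactSpace
  have hAc : Countable A := by
    have h1 : A.Countable := by
      have h2 : (Subtype.val '' A).Countable := by
        apply hc.mono
        rintro _ ⟨y, hy, rfl⟩
        exact ⟨hy.1, y.2, hy.2⟩
      exact Set.countable_of_injective_of_countable_image Subtype.val_injective.injOn h2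
    exact h1.to_subtype
  obtain ⟨z₀, hz₀⟩ := hne
  have hne' : Nonempty A := ⟨⟨⟨z₀, hz₀.2.1⟩, ⟨hz₀.1, hz₀.2.2⟩⟩⟩
  obtain ⟨z, hz⟩ : ∃ z : A, (interior ({z} : Set A)).Nonempty :=
    nonempty_interior_of_iUnion_of_closed (fun z => isClosed_singleton) (by
      ext y
      simp)
  have hz1 : IsOpen ({z} : Set A) := by
    obtain ⟨y, hy⟩ := hz
    have hyz : y ∈ ({z} : Set A) := interior_subset hy
    have hyz' : y = z := hyz
    have hzi : z ∈ interior ({z} : Set A) := by
      rw [hyz'] at hy
      exact hy
    have : interior ({z} : Set A) = {z} :=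
      Subset.antisymm interior_subset (fun w hw => by
        have hw' : w = z := hw
        rw [hw']
        exact hzi)
    rw [← this]
    exact isOpen_interior
  have hz2 : IsOpen ({(z : K)} : Set K) := by
    have := hA.isOpenMap_subtype_val _ hz1
    simpa using this
  obtain ⟨W, hW, hWz⟩ := isOpen_induced_iff.1 hz2
  refine ⟨z, (z : K).2, z.2.2, z.2.1, W, hW, ?_, ?_⟩
  · have : (z : K) ∈ Subtype.val ⁻¹' W := by rw [hWz]; rfl
    exact this
  · intro y hy hyW
    have : (⟨y, hy⟩ : K) ∈ Subtype.val ⁻¹' W := hyW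
    rw [hWz] at this
    exact congrArg Subtype.val this

end Pool.Agent.Y504.CO.Bad
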