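import Pool.Agent.Y504.CO.Stm3
import Pool.Agent.Y504.CO.P2

/-!
# The `C^r` closing lemma at isolated nonwandering points
-/

set_option autoImplicit false
set_option linter.unusedSectionVars false

open scoped Manifold ContDiff Topology
open Filter Set Metric

universe u

namespace Pool.Agent.Y504.CO.C2

open Pool.Agent.H718R2.G Pool.Agent.TH80.OMS

theorem c1_top {N : Type u} [TopologicalSpace N] [CompactSpace N]
    [TopologicalSpace.MetrizableSpace N] (h1 : S_C1.{u}) (f : N ≃ₜ N) (z : N)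
    (hz : z ∈ Omega f) (hzp : z ∉ Per f)
    (hiso : ∃ O : Set N, IsOpen O ∧ z ∈ O ∧ ∀ y ∈ Omega f, y ∈ O → y = z) :
    ∃ O ∈ 𝓝 z, ∀ W ∈ 𝓝 z, ∃ a ∈ W, ∃ n : ℕ, 1 ≤ n ∧ f^[n] a ∈ W ∧
      ∀ i, 0 < i → i < n → f^[i] a ∉ O := by
  letI : MetricSpace N := TopologicalSpace.metrizableSpaceMetric N
  exact h1 N f z hz hzp hiso

theorem main (hP : S_P2.{u}) (h1 : S_C1.{u}) : S_C2.{u} := by
  intro n N _ _ _ _ _ r hr f U hU hfU z hz hzp hiso
  have hmet : TopologicalSpace.MetrizableSpace N := Manifold.metrizableSpace (𝓡 n) N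
  obtain ⟨O, hO, hseg⟩ := c1_top h1 f.toHomeomorph z hz hzp hiso
  obtain ⟨O₁, hO₁, hzO₁, hO₁'⟩ := hiso
  have hO₁per : ∀ y ∈ O₁, y ∉ Per f := by
    rintro y hy ⟨k, hk, hky⟩
    have hyo : y ∈ Omega f := by
      intro W _ hyW
      exact ⟨k, hk, y, hyW, by rw [hky]; exact hyW⟩
    have := hO₁' y hyo hy
    rw [this] at hky
    exact hzp ⟨k, hk, hky⟩
  set z' : N := f.symm z with hz'
  have hfz' : f z' = z := f.apply_symm_apply z
  have hne : z ≠ z' := by
    intro h
    apply hzp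
    refine ⟨1, le_rfl, ?_⟩
    show f z = z
    conv_lhs => rw [h]
    exact hfz'
  obtain ⟨A₀, A₀', hA₀, hA₀', hzA₀, hzA₀', hdis⟩ := t2_separation hne
  set B : Set N := interior O ∩ O₁ with hB
  have hBo : IsOpen B := isOpen_interior.inter hO₁
  have hzB : z ∈ B := ⟨mem_interior_iff_mem_nhds.2 hO, hzO₁⟩
  set A : Set N := A₀ ∩ B with hA
  set A' : Set N := A₀' ∩ f ⁻¹' B with hA'
  have hAo : IsOpen A := hA₀.inter hBo
  have hAo' : IsOpen A' := hA₀'.inter (hBo.preimage f.continuous)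
  have hzA : z ∈ A := ⟨hzA₀, hzB⟩
  have hzA' : z' ∈ A' := ⟨hzA₀', by show f z' ∈ B; rw [hfz']; exact hzB⟩
  have hAA' : Disjoint A A' := hdis.mono inter_subset_left inter_subset_left
  obtain ⟨W, hW, W', hW', hP2⟩ := hP n N r hr f U hU hfU z z' A A' hAo hAo' hzA hzA' hAA'
  have hfz : f z ≠ z := fun h => hzp ⟨1, le_rfl, h⟩
  obtain ⟨C, C', hC, hC', hzC, hzC', hCC'⟩ := t2_separation hfz.symm
  have hWn : W ∩ f.symm ⁻¹' W' ∩ (C ∩ f ⁻¹' C') ∈ 𝓝 z := by
    refine inter_mem (inter_mem hW (f.symm.continuous.continuousAt.preimage_mem_nhds hW'))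
      (inter_mem (hC.mem_nhds hzC) ((hC'.preimage f.continuous).mem_nhds hzC'))
  obtain ⟨a, ha, k, hk1, hka, hint⟩ := hseg _ hWn
  have hka' : f^[k] a ∈ W ∩ f.symm ⁻¹' W' ∩ (C ∩ f ⁻¹' C') := hka
  have hint' : ∀ i, 0 < i → i < k → f^[i] a ∉ O := hint
  have hk2 : 2 ≤ k := by
    by_contra hk
    have hk : k = 1 := by omega
    rw [hk] at hka'
    exact Set.disjoint_left.1 hCC' hka'.2.1 ha.2.2
  obtain ⟨l, rfl⟩ : ∃ l, k = l + 2 := ⟨k - 2, by omega⟩
  have hs' : f^[l + 1] a ∈ W' := by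
    have h2 := hka'.1.2
    have e : f.symm (f^[l + 2] a) = f^[l + 1] a := by
      rw [Function.iterate_succ_apply']
      exact f.symm_apply_apply _
    have h3 : f.symm (f^[l + 2] a) ∈ W' := h2
    rwa [e] at h3
  obtain ⟨Φ, g, hgU, hg, hΦ1, hΦ2, hΦ3⟩ := hP2 a ha.1.1 (f^[l + 1] a) hs'
  have hBO : B ⊆ O := inter_subset_left.trans interior_subset
  refine ⟨g, hgU, ⟨l + 2, by omega, ?_⟩, ?_⟩
  · have h5 : ∀ i, i ≤ l → g^[i + 1] z = f^[i + 1] a := by
      intro i
      induction i with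
      | zero =>
        intro _
        show g z = f a
        rw [hg, hΦ1]
      | succ i ih =>
        intro hi
        rw [Function.iterate_succ_apply', ih (by omega), hg, Function.iterate_succ_apply' f (i + 1)]
        congr 1
        apply hΦ3
        · intro h
          exact hint' (i + 1) (by omega) (by omega) (hBO h.2)
        · intro h
          have h6 : f (f^[i + 1] a) ∈ B := h.2
          rw [← Function.iterate_succ_apply' f] at h6
          exact hint' (i + 2) (by omega) (by omega) (hBO h6)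
    rw [Function.iterate_succ_apply', h5 l le_rfl, hg, hΦ2, hfz']
  · intro k x hk hx
    have hper : ∀ i, f^[i] x ∈ Per f := by
      intro i
      refine ⟨k, hk, ?_⟩
      rw [← Function.iterate_add_apply, add_comm, Function.iterate_add_apply, hx]
    have h7 : ∀ y ∈ Per f, Φ y = y := by
      intro y hy
      apply hΦ3
      · intro h
        exact hO₁per y h.2.2 hy
      · intro h
        have h8 : f y ∈ B := h.2
        obtain ⟨m, hm, hmy⟩ := hy
        refine hO₁per (f y) h8.2 ⟨m, hm, ?_⟩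
        rw [← Function.iterate_succ_apply, Function.iterate_succ_apply', hmy]
    have h8 : ∀ i, g^[i] x = f^[i] x := by
      intro i
      induction i with
      | zero => rfl
      | succ i ih =>
        rw [Function.iterate_succ_apply', ih, hg, h7 _ (hper i), Function.iterate_succ_apply']
    rw [h8, hx]

/-- for an `Ω`-stable diffeomorphism all isolated nonwandering points are periodic -/
theorem isolated_per (h2 : S_C2.{u}) {n : ℕ} {N : Type u} [TopologicalSpace N] [T2Space N]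
    [CompactSpace N] [ChartedSpace (V n) N] [IsManifold (𝓡 n) ∞ N] {r : ℕ∞} (hr : 1 ≤ r)
    {U : Set (DiffM n N r)} (hU : IsOpen[strongTop n N r] U)
    (hfin : ∀ g ∈ U, ∀ k : ℕ, 1 ≤ k → {x | g^[k] x = x}.Finite)
    (hcard : ∀ g ∈ U, ∀ g' ∈ U, ∀ k : ℕ, 1 ≤ k →
      Set.ncard {x | g^[k] x = x} = Set.ncard {x | g'^[k] x = x})
    {f : DiffM n N r} (hf : f ∈ U) (z : N) (hz : z ∈ Omega f)
    (hiso : ∃ O : Set N, IsOpen O ∧ z ∈ O ∧ ∀ y ∈ Omega f, y ∈ O → y = z) : z ∈ Per f := by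
  by_contra hzp
  obtain ⟨g, hg, ⟨k, hk, hkz⟩, hper⟩ := h2 n N r hr f U hU hf z hz hzp hiso
  have h1 : {x | f^[k] x = x} = {x | g^[k] x = x} :=
    Set.eq_of_subset_of_ncard_le (fun x hx => hper k x hk hx)
      (hcard f hf g hg k hk).ge (hfin g hg k hk)
  apply hzp
  refine ⟨k, hk, ?_⟩
  have : z ∈ {x | f^[k] x = x} := by rw [h1]; exact hkz
  exact this

end Pool.Agent.Y504.CO.C2
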