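import Pool.Agent.Y504.CO.Rob
import Mathlib.Topology.MetricSpace.Perfect

/-!
# If the nonwandering set is countable, then all recurrent points are periodic
-/

set_option autoImplicit false

open scoped Manifold ContDiff Topology
open Filter Set Metric

universe u

namespace Pool.Agent.Y504.CO.Cnt

open Pool.Agent.H718R2.G Pool.Agent.TH80.OMS Pool.Agent.Y504.CO

theorem omega_closed {X : Type u} [TopologicalSpace X] (f : X → X) : IsClosed (Omega f) := by
  rw [← isOpen_compl_iff, isOpen_iff_mem_nhds]
  intro x hx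
  have hx' : ¬ ∀ W : Set X, IsOpen W → x ∈ W → ∃ k : ℕ, 1 ≤ k ∧ ∃ y ∈ W, f^[k] y ∈ W := hx
  push Not at hx'
  obtain ⟨W, hW, hxW, h⟩ := hx'
  filter_upwards [hW.mem_nhds hxW] with y hyW hy
  obtain ⟨k, hk, z, hz, hz'⟩ := hy W hW hyW
  exact h k hk z hz hz'

theorem main {X : Type u} [TopologicalSpace X] [CompactSpace X]
    [TopologicalSpace.MetrizableSpace X] (f : X → X) (hf : Continuous f)
    (hinj : Function.Injective f) (hc : (Omega f).Countable) : Rec f ⊆ Per f := by
  classical
  letI : MetricSpace X := TopologicalSpace.metrizableSpaceMetric X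
  intro x hx
  by_contra hxP
  let C : Set X := range fun i : ℕ => f^[i] x
  have hpre : Preperfect C := by
    rw [preperfect_iff_nhds]
    rintro _ ⟨i, rfl⟩ W hW
    have h1 : f^[i] ⁻¹' W ∈ 𝓝 x := (hf.iterate i).continuousAt hW
    obtain ⟨k, hk, hkW⟩ := hx _ h1
    refine ⟨f^[i] (f^[k] x), ⟨hkW, ⟨i + k, Function.iterate_add_apply _ _ _ _⟩⟩, ?_⟩
    intro he
    have h2 : f^[k] x = x := hinj.iterate i he
    exact hxP ⟨k, hk, h2⟩
  have hperf := hpre.perfect_closure
  obtain ⟨e, he, -, hei⟩ := hperf.exists_nat_bool_injection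
    (⟨x, subset_closure ⟨0, rfl⟩⟩ : (closure C).Nonempty)
  have hsub : closure C ⊆ Omega f := by
    apply closure_minimal _ (omega_closed f)
    rintro _ ⟨i, rfl⟩
    show f^[i] x ∈ Omega f
    induction i with
    | zero => exact rec_sub_omega hx
    | succ i ih => rw [Function.iterate_succ_apply']; exact omega_maps hf ih
  have h3 : (range e).Countable := hc.mono (he.trans hsub)
  have h4 : Countable (ℕ → Bool) := by
    have := h3.to_subtype
    exact (Set.rangeFactorization_injective.2 hei).countable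
  obtain ⟨F, hF⟩ := exists_surjective_nat (ℕ → Bool)
  obtain ⟨m, hm⟩ := hF (fun i => !(F i i))
  have h5 := congrFun hm m
  simp at h5

end Pool.Agent.Y504.CO.Cnt
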