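import Pool.Agent.Y504.CO.Stm6
import Pool.Agent.Y504.CO.F2c

/-!
# Project CO (helper504), job ND: periodic points become nondegenerate after a small perturbation

The proof follows the plan of helper504; the tools on perturbed maps are those of
`Pool/Agent/Y306/CO/F2.lean` (helper306).
-/

set_option autoImplicit false
set_option linter.unusedSectionVars false

open scoped Manifold ContDiff Topology
open Filter Set Metric

universe u

namespace Pool.Agent.Y504.CO.NDc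

open Pool.Agent.H718R2.G Pool.Agent.TH80.OMS Pool.Agent.Y504.CO Pool.Agent.Y504.CO.F2c

variable {n : ℕ} {N : Type u} [TopologicalSpace N] [ChartedSpace (V n) N]

/-- a map between two charts -/
theorem chart_c1' [IsManifold (𝓡 n) ∞ N] {r : ℕ∞} (hr : 1 ≤ r) (g : DiffM n N r)
    {ψ ψ' : OpenPartialHomeomorph N (V n)} (hψ : ψ ∈ IsManifold.maximalAtlas (𝓡 n) ∞ N)
    (hψ' : ψ' ∈ IsManifold.maximalAtlas (𝓡 n) ∞ N)
    {x : N} (hx : x ∈ ψ.source) (hx' : g x ∈ ψ'.source) :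
    ContDiffAt ℝ 1 (fun v : V n => ψ' (g (ψ.symm v))) (ψ x) := by
  have hr' : (1 : WithTop ℕ∞) ≤ r := by exact_mod_cast hr
  rw [← contMDiffAt_iff_contDiffAt]
  have h3 : ContMDiffAt (𝓡 n) (𝓡 n) 1 ψ.symm (ψ x) :=
    ((contMDiffOn_symm_of_mem_maximalAtlas hψ _ (ψ.map_source hx)).contMDiffAt
      (ψ.open_target.mem_nhds (ψ.map_source hx))).of_le (by exact_mod_cast le_top)
  have h6 : ContMDiffAt (𝓡 n) (𝓡 n) 1 g (ψ.symm (ψ x)) :=
    (g.contMDiff _).of_le hr'
  have h8 : ContMDiffAt (𝓡 n) (𝓡 n) 1 ψ' (g (ψ.symm (ψ x))) := by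
    rw [ψ.left_inv hx]
    exact ((contMDiffOn_of_mem_maximalAtlas hψ' _ hx').contMDiffAt
      (ψ'.open_source.mem_nhds hx')).of_le (by exact_mod_cast le_top)
  exact ContMDiffAt.comp (g := ψ') (f := fun v : V n => g (ψ.symm v)) _ h8
    (ContMDiffAt.comp (g := g) (f := ψ.symm) _ h6 h3)

/-- the product of linear maps -/
noncomputable def Pr (B : ℕ → V n →L[ℝ] V n) : ℕ → V n →L[ℝ] V n
  | 0 => ContinuousLinearMap.id ℝ (V n)
  | i + 1 => (B i) ∘L (Pr B i)

theorem exists_eps (P : V n →L[ℝ] V n) {κ : ℝ} (hκ : 0 < κ) : ∃ ε : ℝ, 0 < ε ∧ ε < κ ∧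
    ∀ w : V n, w = (1 + ε) • P w → w = 0 := by
  have hfin : {μ : ℝ | Module.End.HasEigenvalue (P : V n →ₗ[ℝ] V n) μ}.Finite :=
    Module.End.finite_hasEigenvalue _
  have hinf : ((fun ε : ℝ => (1 + ε)⁻¹) '' Ioo 0 κ).Infinite := by
    refine (Ioo_infinite hκ).image ?_
    intro a ha b hb hab
    have h1 : (1 + a)⁻¹ = (1 + b)⁻¹ := hab
    have h2 := inv_injective h1
    linarith
  obtain ⟨μ, ⟨ε, hε, rfl⟩, hμ⟩ := hinf.exists_notMem_finite hfin
  refine ⟨ε, hε.1, hε.2, fun w hw => ?_⟩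
  by_contra hw0
  apply hμ
  have h0 : (1 + ε) ≠ 0 := by
    have := hε.1
    positivity
  refine Module.End.hasEigenvalue_of_hasEigenvector (x := w) ⟨?_, hw0⟩
  rw [Module.End.mem_eigenspace_iff]
  show P w = (1 + ε)⁻¹ • w
  conv_rhs => rw [hw]
  rw [smul_smul, inv_mul_cancel₀ h0, one_smul]

theorem main (hL : S_LP.{u}) : S_ND.{u} := by
  intro n N _ _ _ _ _ r hr g U hU hgU z hz
  obtain ⟨m', hm', hpm'⟩ := hz
  -- the minimal period
  obtain ⟨k, hk⟩ : ∃ k : ℕ, k = Function.minimalPeriod g z := ⟨_, rfl⟩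
  have hk1 : 1 ≤ k := by
    rw [hk]
    exact Function.IsPeriodicPt.minimalPeriod_pos hm' hpm'
  have hpk : g^[k] z = z := by
    rw [hk]
    exact Function.isPeriodicPt_minimalPeriod g z
  have hmin : ∀ i, 0 < i → i < k → g^[i] z ≠ z := fun i hi hik h =>
    Function.not_isPeriodicPt_of_pos_of_lt_minimalPeriod hi.ne' (hk ▸ hik) h
  -- the charts
  obtain ⟨ψ, hψd⟩ : ∃ ψ : ℕ → OpenPartialHomeomorph N (V n),
      ψ = fun i => chartAt (V n) (g^[i % k] z) := ⟨_, rfl⟩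
  have hψk : ψ k = ψ 0 := by rw [hψd]; simp
  have hψa : ∀ i, ψ i ∈ IsManifold.maximalAtlas (𝓡 n) ∞ N := by
    intro i
    rw [hψd]
    exact IsManifold.chart_mem_maximalAtlas _
  have hsrc : ∀ i ≤ k, g^[i] z ∈ (ψ i).source := by
    intro i hi
    rw [hψd]
    rcases Nat.lt_or_ge i k with h | h
    · simp only [Nat.mod_eq_of_lt h]
      exact mem_chart_source _ _
    · have e : i = k := le_antisymm hi h
      subst e
      simp only [Nat.mod_self, Function.iterate_zero, id_eq, hpk]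
      exact mem_chart_source _ _
  have hz0 : z ∈ (ψ 0).source := hsrc 0 (Nat.zero_le _)
  -- the derivatives
  obtain ⟨B, hB⟩ : ∃ B : ℕ → V n →L[ℝ] V n, B = fun i =>
      fderiv ℝ (fun v => ψ (i + 1) (g ((ψ i).symm v))) (ψ i (g^[i] z)) := ⟨_, rfl⟩
  -- the neighbourhood
  obtain ⟨O, hO, hzO, hOQ⟩ := exists_nbhd
    ((Finset.finite_toSet (Finset.range k)).image fun i => g^[i] z) z
  have horb : ∀ i, g^[i] z ∈ (fun i => g^[i] z) '' (Finset.range k : Set ℕ) := by
    intro i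
    refine ⟨i % k, by simpa using Nat.mod_lt i hk1, ?_⟩
    exact Function.IsPeriodicPt.iterate_mod_apply hpk i
  obtain ⟨κ, hκ, ρ, hρ, hLP⟩ := hL n N r hr g U hU hgU (ψ 0) (hψa 0) z hz0 O hO hzO
  obtain ⟨ε, hε0, hεκ, hε⟩ := exists_eps (Pr B k) hκ
  have hT : ‖ε • ContinuousLinearMap.id ℝ (V n)‖ < κ := by
    refine lt_of_le_of_lt ?_ hεκ
    rw [norm_smul, Real.norm_of_nonneg hε0.le]
    have h := ContinuousLinearMap.norm_id_le (𝕜 := ℝ) (E := V n)
    nlinarith
  obtain ⟨Φ, g', hg'U, hg', hΦO, hΦc⟩ := hLP (ε • ContinuousLinearMap.id ℝ (V n)) hT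
  have hΦz : Φ z = z := fixes hz0 hρ hΦc
  have hg'z : ∀ i, g'^[i] z = g^[i] z := by
    intro i
    refine (iter_fix (X := range fun i => g^[i] z) hg' ?_ ?_ ⟨0, rfl⟩ i).1
    · rintro _ ⟨i, rfl⟩
      exact ⟨i + 1, Function.iterate_succ_apply' g i z⟩
    · rintro _ ⟨i, rfl⟩
      show Φ (g^[i] z) = g^[i] z
      by_cases h : g^[i] z = z
      · rw [h]
        exact hΦz
      · exact hΦO _ fun hcon => hOQ _ (horb i) h (subset_closure hcon)
  -- the derivatives of the perturbed map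
  have hd : ∀ i, 0 < i → i < k →
      fderiv ℝ (fun v => ψ (i + 1) (g' ((ψ i).symm v))) (ψ i (g^[i] z)) = B i := by
    intro i hi hik
    rw [hB]
    refine Filter.EventuallyEq.fderiv_eq ?_
    have h1 : g^[i] z ∈ (closure O)ᶜ := hOQ _ (horb i) (hmin i hi hik)
    filter_upwards [(tendsto_symm (hsrc i hik.le)).eventually
      (isClosed_closure.isOpen_compl.mem_nhds h1)] with v hv
    rw [hg', hΦO _ fun hcon => hv (subset_closure hcon)]
  have hd0 : fderiv ℝ (fun v => ψ (0 + 1) (g' ((ψ 0).symm v))) (ψ 0 z) =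
      (B 0) ∘L (ContinuousLinearMap.id ℝ (V n) + ε • ContinuousLinearMap.id ℝ (V n)) := by
    have hF : DifferentiableAt ℝ (fun v => ψ (0 + 1) (g ((ψ 0).symm v))) (ψ 0 z) :=
      (chart_c1' hr g (hψa 0) (hψa 1) hz0 (hsrc 1 hk1)).differentiableAt (by norm_num)
    have hB0 : B 0 = fderiv ℝ (fun v => ψ (0 + 1) (g ((ψ 0).symm v))) (ψ 0 z) := by
      rw [hB]
      rfl
    rw [hB0]
    refine fderiv_pert hF ?_
    have h2 : ∀ᶠ v in 𝓝 (ψ 0 z), ‖v - ψ 0 z‖ < ρ := by
      filter_upwards [ball_mem_nhds (ψ 0 z) hρ] with v hv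
      rwa [mem_ball_iff_norm] at hv
    filter_upwards [h2, (ψ 0).open_target.mem_nhds ((ψ 0).map_source hz0)] with v h4 h5
    have h6 : ψ 0 ((ψ 0).symm v) = v := (ψ 0).right_inv h5
    obtain ⟨h7, h8⟩ := hΦc ((ψ 0).symm v) ((ψ 0).map_target h5) (by rw [h6]; exact h4)
    rw [h6] at h8
    have h9 : Φ ((ψ 0).symm v) =
        (ψ 0).symm (v + (ε • ContinuousLinearMap.id ℝ (V n)) (v - ψ 0 z)) := by
      rw [← h8, (ψ 0).left_inv h7]
    rw [hg', h9]
  refine ⟨g', hg'U, k, ψ, hk1, ?_, hψk, hψa, ?_, ?_⟩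
  · rw [hg'z, hpk]
  · intro i hi
    rw [hg'z]
    exact hsrc i hi
  · intro w hwk hw
    have h1 : ∀ i, 1 ≤ i → i ≤ k → w i = (1 + ε) • Pr B i (w 0) := by
      intro i hi
      induction i, hi using Nat.le_induction with
      | base =>
        intro _
        have h2 := hw 0 hk1
        rw [hg'z] at h2
        have h3 : w 1 = ((B 0) ∘L (ContinuousLinearMap.id ℝ (V n) +
            ε • ContinuousLinearMap.id ℝ (V n))) (w 0) := by
          rw [← hd0]
          exact h2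
        rw [h3]
        show B 0 (w 0 + ε • w 0) = (1 + ε) • B 0 (w 0)
        rw [map_add, map_smul, add_smul, one_smul]
      | succ i hi ih =>
        intro hik
        have h2 := hw i (by omega)
        rw [hg'z, hd i (by omega) (by omega), ih (by omega), map_smul] at h2
        exact h2
    have h2 := h1 k hk1 le_rfl
    rw [hwk] at h2
    exact hε _ h2

end Pool.Agent.Y504.CO.NDc
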