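import Pool.Agent.Y504.CO.Stm3

/-!
# Generic diffeomorphisms and isolated nonwandering points: statements
-/

set_option autoImplicit false

open scoped Manifold ContDiff Topology
open Filter Set Metric

universe u

namespace Pool.Agent.Y504.CO

open Pool.Agent.H718R2.G Pool.Agent.TH80.OMS

/-- The periodic orbit `p, g p, ..., g^k p = p` is nondegenerate (`1` is not an eigenvalue of
`D(g^k)(p)`), seen in the charts `ψ i` at the points `g^i p`. -/
def NonDeg (n : ℕ) {N : Type u} [TopologicalSpace N] [ChartedSpace (V n) N] (g : N → N) (p : N)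
    (k : ℕ) (ψ : ℕ → OpenPartialHomeomorph N (V n)) : Prop :=
  1 ≤ k ∧ g^[k] p = p ∧ ψ k = ψ 0 ∧
    (∀ i, ψ i ∈ IsManifold.maximalAtlas (𝓡 n) ∞ N) ∧ (∀ i ≤ k, g^[i] p ∈ (ψ i).source) ∧
    ∀ w : ℕ → V n, w k = w 0 →
      (∀ i < k, w (i + 1) =
        fderiv ℝ (fun v => ψ (i + 1) (g ((ψ i).symm v))) (ψ i (g^[i] p)) (w i)) → w 0 = 0

/-- PE: nondegenerate periodic orbits persist. -/
def S_PE : Prop :=
  ∀ (n : ℕ) (N : Type u) [TopologicalSpace N] [T2Space N] [CompactSpace N] [ChartedSpace (V n) N]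
    [IsManifold (𝓡 n) ∞ N] (r : ℕ∞), 1 ≤ r → ∀ (g : DiffM n N r) (p : N) (k : ℕ)
    (ψ : ℕ → OpenPartialHomeomorph N (V n)), NonDeg n g p k ψ → ∀ O : Set N, IsOpen O → p ∈ O →
    ∃ U : Set (DiffM n N r), IsOpen[strongTop n N r] U ∧ g ∈ U ∧ ∀ g' ∈ U, ∃ q ∈ O, q ∈ Per g'

/-- ND: periodic points become nondegenerate after a small perturbation. -/
def S_ND : Prop :=
  ∀ (n : ℕ) (N : Type u) [TopologicalSpace N] [T2Space N] [CompactSpace N] [ChartedSpace (V n) N]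
    [IsManifold (𝓡 n) ∞ N] (r : ℕ∞), 1 ≤ r → ∀ (g : DiffM n N r) (U : Set (DiffM n N r)),
    IsOpen[strongTop n N r] U → g ∈ U → ∀ z ∈ Per g,
    ∃ g' ∈ U, ∃ (k : ℕ) (ψ : ℕ → OpenPartialHomeomorph N (V n)), NonDeg n g' z k ψ

/-- BA: for a residual set of maps, every point of a countable family of open sets which can be
closed up robustly after perturbation is a limit of periodic points. -/
def S_BA : Prop :=
  ∀ (D : Type u) (t : TopologicalSpace D) (X : Type u) [TopologicalSpace X]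
    [SecondCountableTopology X] (P Q : D → Set X),
    (∀ f : D, ∀ z ∈ Q f, z ∉ closure (P f) → ∀ O : Set X, IsOpen O → z ∈ O →
      ∀ U : Set D, IsOpen[t] U → f ∈ U → ∃ g ∈ U, ∃ W : Set D, IsOpen[t] W ∧ g ∈ W ∧
        ∀ g' ∈ W, (O ∩ P g').Nonempty) →
    ∃ R : ℕ → Set D, (∀ j, IsOpen[t] (R j)) ∧ (∀ j, @Dense D t (R j)) ∧
      ∀ f, (∀ j, f ∈ R j) → Q f ⊆ closure (P f)

end Pool.Agent.Y504.CO
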