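import Pool.Agent.Y504.CO.Final
import Pool.Agent.Y504.CO.Bad
import Pool.Agent.Y504.CO.Stm6
import Pool.Agent.Y504.CO.NDc
import Pool.Agent.Y917.CO.BA

/-!
# Generic diffeomorphisms: the nonwandering points which are not limits of periodic points
-/

set_option autoImplicit false
set_option linter.unusedSectionVars false

open scoped Manifold ContDiff Topology
open Filter Set Metric

universe u

namespace Pool.Agent.Y504.CO.Gnr

open Pool.Agent.H718R2.G Pool.Agent.TH80.OMS Pool.Agent.Y504.CO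

/-- the isolated points of `Ω(f)` -/
def IsoPts {N : Type u} [TopologicalSpace N] (f : N → N) : Set N :=
  {z | z ∈ Omega f ∧ ∃ O : Set N, IsOpen O ∧ z ∈ O ∧ ∀ y ∈ Omega f, y ∈ O → y = z}

theorem hND : S_ND.{u} := NDc.main Plug.hLP
theorem hBA : S_BA.{u} := Pool.Agent.Y917.CO.main

theorem generic_iso (hPE : S_PE.{u}) (n : ℕ) (N : Type u)
    [TopologicalSpace N] [T2Space N] [CompactSpace N] [ChartedSpace (V n) N]
    [IsManifold (𝓡 n) ∞ N] (r : ℕ∞) (hr : 1 ≤ r) :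
    ∃ R : ℕ → Set (DiffM n N r), (∀ j, IsOpen[strongTop n N r] (R j)) ∧
      (∀ j, @Dense _ (strongTop n N r) (R j)) ∧
      ∀ f : DiffM n N r, (∀ j, f ∈ R j) → IsoPts f ⊆ closure (Per f) := by
  have : SecondCountableTopology N := ChartedSpace.secondCountable_of_sigmaCompact (V n) N
  refine hBA (DiffM n N r) (strongTop n N r) N (fun f => Per f) (fun f => IsoPts f) ?_
  intro f z hz hzP O hO hzO U hU hfU
  have hzP' : z ∉ Per f := fun h => hzP (subset_closure h)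
  obtain ⟨g, hg, hzg, -⟩ := Final.hC2 n N r hr f U hU hfU z hz.1 hzP' hz.2
  obtain ⟨g', hg', k, ψ, hnd⟩ := hND n N r hr g U hU hg z hzg
  obtain ⟨W, hW, hgW, h⟩ := hPE n N r hr g' z k ψ hnd O hO hzO
  exact ⟨g', hg', W, hW, hgW, fun g'' hg'' => by
    obtain ⟨q, hqO, hq⟩ := h g'' hg''
    exact ⟨q, hqO, hq⟩⟩

theorem generic (hPE : S_PE.{u}) (n : ℕ) (N : Type u)
    [TopologicalSpace N] [T2Space N] [CompactSpace N] [ChartedSpace (V n) N]
    [IsManifold (𝓡 n) ∞ N] (r : ℕ∞) (hr : 1 ≤ r) :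
    ∃ R : ℕ → Set (DiffM n N r), (∀ j, IsOpen[strongTop n N r] (R j)) ∧
      (∀ j, @Dense _ (strongTop n N r) (R j)) ∧
      ∀ f : DiffM n N r, (∀ j, f ∈ R j) → ∀ O : Set N, IsOpen O →
        (O ∩ (Omega f \ closure (Per f))).Nonempty →
        ¬ (O ∩ (Omega f \ closure (Per f))).Countable := by
  obtain ⟨R, h1, h2, h3⟩ := generic_iso hPE n N r hr
  refine ⟨R, h1, h2, fun f hf O hO hne hc => ?_⟩
  obtain ⟨z, hz, hzC, -, W, hW, hzW, h⟩ := Bad.exists_isolated (Cnt.omega_closed f)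
    isClosed_closure hO hne hc
  exact hzC (h3 f hf ⟨hz, W, hW, hzW, h⟩)

/-- The closing lemma at isolated nonwandering points. -/
theorem closing {n : ℕ} {N : Type u} [TopologicalSpace N] [T2Space N] [CompactSpace N]
    [ChartedSpace (V n) N] [IsManifold (𝓡 n) ∞ N] {r : ℕ∞} (hr : 1 ≤ r) (f : DiffM n N r)
    (z : N) (hz : z ∈ IsoPts f) (U : Set (DiffM n N r)) (hU : IsOpen[strongTop n N r] U)
    (hfU : f ∈ U) : ∃ g ∈ U, z ∈ Per g := by
  by_cases hzP : z ∈ Per f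
  · exact ⟨f, hfU, hzP⟩
  · obtain ⟨g, hg, hzg, -⟩ := Final.hC2 n N r hr f U hU hfU z hz.1 hzP hz.2
    exact ⟨g, hg, hzg⟩

end Pool.Agent.Y504.CO.Gnr
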