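import Pool.Agent.Y504.CO.Gnr
import Pool.Agent.Y429.CO.PE

/-!
# Generic diffeomorphisms: final form
-/

set_option autoImplicit false
set_option linter.unusedSectionVars false

open scoped Manifold ContDiff Topology
open Filter Set Metric

universe u

namespace Pool.Agent.Y504.CO.GnrF

open Pool.Agent.H718R2.G Pool.Agent.TH80.OMS Pool.Agent.Y504.CO

theorem hPE : S_PE.{u} := Pool.Agent.Y429.CO.PE.main

theorem generic (n : ℕ) (N : Type u)
    [TopologicalSpace N] [T2Space N] [CompactSpace N] [ChartedSpace (V n) N]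
    [IsManifold (𝓡 n) ∞ N] (r : ℕ∞) (hr : 1 ≤ r) :
    ∃ R : ℕ → Set (DiffM n N r), (∀ j, IsOpen[strongTop n N r] (R j)) ∧
      (∀ j, @Dense _ (strongTop n N r) (R j)) ∧
      ∀ f : DiffM n N r, (∀ j, f ∈ R j) → ∀ O : Set N, IsOpen O →
        (O ∩ (Omega f \ closure (Per f))).Nonempty →
        ¬ (O ∩ (Omega f \ closure (Per f))).Countable :=
  Gnr.generic hPE n N r hr

end Pool.Agent.Y504.CO.GnrF
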