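import Pool.Agent.Y504.CO.Stm7
import Pool.Agent.Y504.CO.Gen
import Pool.Agent.Y504.CO.Gnr

/-!
# Generic hyperbolicity of periodic points
-/

set_option autoImplicit false
set_option linter.unusedSectionVars false

open scoped Manifold ContDiff Topology
open Filter Set Metric

universe u

namespace Pool.Agent.Y504.CO.KSG

open Pool.Agent.H718R2.G Pool.Agent.TH80.OMS Pool.Agent.Y504.CO

/-- The set `S` contains a countable intersection of open dense subsets of `Diff^r(N)`. -/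
def BaireSet (n : ℕ) (N : Type u) [TopologicalSpace N] [ChartedSpace (V n) N] (r : ℕ∞)
    (S : Set (DiffM n N r)) : Prop :=
  ∃ R : ℕ → Set (DiffM n N r), (∀ j, IsOpen[strongTop n N r] (R j)) ∧
    (∀ j, @Dense _ (strongTop n N r) (R j)) ∧ ∀ f, (∀ j, f ∈ R j) → f ∈ S

theorem BaireSet.inter {n : ℕ} {N : Type u} [TopologicalSpace N] [ChartedSpace (V n) N] {r : ℕ∞}
    {S T : Set (DiffM n N r)} (hS : BaireSet n N r S) (hT : BaireSet n N r T) :
    BaireSet n N r (S ∩ T) := by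
  obtain ⟨R, h1, h2, h3⟩ := hS
  obtain ⟨R', h1', h2', h3'⟩ := hT
  refine ⟨fun j => if j % 2 = 0 then R (j / 2) else R' (j / 2), ?_, ?_, ?_⟩
  · intro j
    show IsOpen[strongTop n N r] (if j % 2 = 0 then R (j / 2) else R' (j / 2))
    split_ifs
    · exact h1 _
    · exact h1' _
  · intro j
    show @Dense _ (strongTop n N r) (if j % 2 = 0 then R (j / 2) else R' (j / 2))
    split_ifs
    · exact h2 _
    · exact h2' _
  · intro f hf
    refine ⟨h3 f fun j => ?_, h3' f fun j => ?_⟩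
    · have h4 : f ∈ (if 2 * j % 2 = 0 then R (2 * j / 2) else R' (2 * j / 2)) := hf (2 * j)
      rw [if_pos (by omega), show 2 * j / 2 = j by omega] at h4
      exact h4
    · have h4 : f ∈ (if (2 * j + 1) % 2 = 0 then R ((2 * j + 1) / 2) else R' ((2 * j + 1) / 2)) :=
        hf (2 * j + 1)
      rw [if_neg (by omega), show (2 * j + 1) / 2 = j by omega] at h4
      exact h4

theorem BaireSet.mono {n : ℕ} {N : Type u} [TopologicalSpace N] [ChartedSpace (V n) N] {r : ℕ∞}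
    {S T : Set (DiffM n N r)} (hS : BaireSet n N r S) (hST : S ⊆ T) : BaireSet n N r T := by
  obtain ⟨R, h1, h2, h3⟩ := hS
  exact ⟨R, h1, h2, fun f hf => hST (h3 f hf)⟩

variable {n : ℕ} {N : Type u} [TopologicalSpace N] [T2Space N] [CompactSpace N]
  [ChartedSpace (V n) N] [IsManifold (𝓡 n) ∞ N]

theorem local_open (hCI : S_CI.{u}) (hNB : S_NB.{u}) {r : ℕ∞} (hr : 1 ≤ r) (K : ℕ)
    (f : DiffM n N r) (hf : HypK n K f) (x : N) : ∃ W ∈ 𝓝 x, ∃ U : Set (DiffM n N r),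
      IsOpen[strongTop n N r] U ∧ f ∈ U ∧ ∀ g ∈ U, ∀ y ∈ W, g^[K] y = y →
        ∀ ψ ∈ IsManifold.maximalAtlas (𝓡 n) ∞ N, y ∈ ψ.source →
        NoBdd (fun _ => fderiv ℝ (fun v => ψ (g^[K] (ψ.symm v))) (ψ y)) := by
  by_cases hx : f^[K] x = x
  · obtain ⟨ε, hε, hB⟩ := hNB.1 n _ (hf x hx (chartAt (V n) x)
      (IsManifold.chart_mem_maximalAtlas x) (mem_chart_source (V n) x))
    obtain ⟨W, hW, U, hU, hfU, h⟩ := (hCI n N r hr f K x).2 (chartAt (V n) x)
      (IsManifold.chart_mem_maximalAtlas x) (chartAt (V n) x)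
      (IsManifold.chart_mem_maximalAtlas x) (mem_chart_source (V n) x)
      (by rw [hx]; exact mem_chart_source (V n) x) ε hε
    refine ⟨W, hW, U, hU, hfU, fun g hg y hy hgy ψ hψ hyψ => ?_⟩
    obtain ⟨h1, -, h3⟩ := h g hg y hy
    exact hNB.2 n N r hr g K y hgy (chartAt (V n) x) (IsManifold.chart_mem_maximalAtlas x) ψ hψ
      h1 hyψ (hB _ h3)
  · obtain ⟨A, B, hA, hB, hxA, hxB, hAB⟩ := t2_separation (Ne.symm hx)
    obtain ⟨W, hW, U, hU, hfU, h⟩ := (hCI n N r hr f K x).1 B hB hxB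
    refine ⟨W ∩ A, inter_mem hW (hA.mem_nhds hxA), U, hU, hfU, fun g hg y hy hgy => ?_⟩
    exfalso
    have h1 := h g hg y hy.1
    rw [hgy] at h1
    exact Set.disjoint_left.1 hAB hy.2 h1

theorem isOpen_hypK (hCI : S_CI.{u}) (hNB : S_NB.{u}) {r : ℕ∞} (hr : 1 ≤ r) (K : ℕ) :
    IsOpen[strongTop n N r] {g : DiffM n N r | HypK n K g} := by
  classical
  refine (@isOpen_iff_forall_mem_open _ (strongTop n N r) {g : DiffM n N r | HypK n K g}).2 ?_
  intro f hf
  choose W hW U hU hfU h using fun x => local_open hCI hNB hr K f hf x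
  obtain ⟨t, ht⟩ := CompactSpace.elim_nhds_subcover W hW
  refine ⟨⋂ x ∈ t, U x, ?_, @isOpen_biInter_finset _ _ (strongTop n N r) t U fun x _ => hU x, ?_⟩
  · intro g hg y hgy
    have hy : y ∈ ⋃ x ∈ t, W x := by rw [ht]; trivial
    obtain ⟨x, hxt, hyW⟩ := mem_iUnion₂.1 hy
    exact h x g (mem_iInter₂.1 hg x hxt) y hyW hgy
  · exact mem_iInter₂.2 fun x _ => hfU x

theorem generic_hyp (hCI : S_CI.{u}) (hNB : S_NB.{u}) (hHD : S_HD.{u}) (n : ℕ) (N : Type u)
    [TopologicalSpace N] [T2Space N] [CompactSpace N] [ChartedSpace (V n) N]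
    [IsManifold (𝓡 n) ∞ N] (r : ℕ∞) (hr : 1 ≤ r) :
    BaireSet n N r {f | ∀ p ∈ Per f, HypAt n f p} := by
  refine ⟨fun j => {g | HypK n (j + 1) g}, fun j => isOpen_hypK hCI hNB hr (j + 1), ?_, ?_⟩
  · intro j
    rw [@dense_iff_inter_open _ (strongTop n N r)]
    rintro U hU ⟨g, hg⟩
    obtain ⟨g', hg', h⟩ := hHD n N r hr (j + 1) (by omega) g U hU hg
    exact ⟨g', hg', h⟩
  · intro f hf p _ m hm hmp ψ hψ hpψ
    have h1 := hf (m - 1)
    have h2 : HypK n (m - 1 + 1) f := h1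
    rw [Nat.sub_add_cancel hm] at h2
    exact h2 p hmp ψ hψ hpψ

/-- For generic `f` with robustly countable nonperiodic recurrence, `Ω(f)` is finite and hyperbolic,
and there are no cycles. -/
theorem generic_finite (hCI : S_CI.{u}) (hNB : S_NB.{u}) (hHD : S_HD.{u}) (n : ℕ) (N : Type u)
    [TopologicalSpace N] [T2Space N] [CompactSpace N] [ChartedSpace (V n) N]
    [IsManifold (𝓡 n) ∞ N] (r : ℕ∞) (hr : 1 ≤ r) :
    BaireSet n N r {f | (∃ U : Set (DiffM n N r), IsOpen[strongTop n N r] U ∧ f ∈ U ∧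
        ∀ g ∈ U, (Rec g \ Per g).Countable) →
      FiniteNoCycle f ∧ ∀ p ∈ Omega f, IsHyperbolicPer n f p} := by
  refine (generic_hyp hCI hNB hHD n N r hr).mono ?_
  rintro f hf ⟨U, hU, hfU, hR⟩
  exact Gen.robust hr U hU hR hfU fun p hp => Plug.hyp_charpoly hr f hp (hf p hp)

end Pool.Agent.Y504.CO.KSG
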