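import Pool.Agent.Y504.CO.Stm2

/-!
# Closing at isolated nonwandering points: statements
-/

set_option autoImplicit false

open scoped Manifold ContDiff Topology
open Filter Set Metric

universe u

namespace Pool.Agent.Y504.CO

open Pool.Agent.H718R2.G Pool.Agent.TH80.OMS

/-- `H` is a limit of orbit segments which start and end near `z`. -/
def LimAt {X : Type u} [MetricSpace X] (f : X → X) (z : X) (H : Set X) : Prop :=
  IsClosed H ∧ ∀ ε : ℝ, 0 < ε → ∃ p n, Seg f H ε p n ∧ dist p z < ε ∧ dist (f^[n] p) z < ε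

/-- C0: minimal limits of orbit segments based at `z`, and rebasing. -/
def S_C0 : Prop :=
  ∀ (X : Type u) [MetricSpace X] [CompactSpace X] (f : X ≃ₜ X) (z : X), z ∈ Omega f →
    ∃ H : Set X, LimAt f z H ∧ (∀ H' ⊆ H, LimAt f z H' → H' = H) ∧
      ∀ (p : ℕ → X) (n i j : ℕ → ℕ), (∀ k, i k < j k ∧ j k ≤ n k) →
        (∀ ε : ℝ, 0 < ε → ∀ᶠ k in atTop, Seg f H ε (p k) (n k)) →
        Tendsto (fun k => f^[i k] (p k)) atTop (𝓝 z) →
        Tendsto (fun k => f^[j k] (p k)) atTop (𝓝 z) →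
        ∀ ε : ℝ, 0 < ε → ∀ᶠ k in atTop, Seg f H ε (f^[i k] (p k)) (j k - i k)

/-- C1: at an isolated nonwandering point there are almost closed orbit segments without
intermediate returns. -/
def S_C1 : Prop :=
  ∀ (X : Type u) [MetricSpace X] [CompactSpace X] (f : X ≃ₜ X) (z : X), z ∈ Omega f → z ∉ Per f →
    (∃ O : Set X, IsOpen O ∧ z ∈ O ∧ ∀ y ∈ Omega f, y ∈ O → y = z) →
    ∃ O ∈ 𝓝 z, ∀ W ∈ 𝓝 z, ∃ a ∈ W, ∃ n : ℕ, 1 ≤ n ∧ f^[n] a ∈ W ∧
      ∀ i, 0 < i → i < n → f^[i] a ∉ O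

/-- C2: the closing lemma at isolated nonwandering points; the perturbation is supported near the
points `z` and `f⁻¹ z`. -/
def S_C2 : Prop :=
  ∀ (n : ℕ) (N : Type u) [TopologicalSpace N] [T2Space N] [CompactSpace N] [ChartedSpace (V n) N]
    [IsManifold (𝓡 n) ∞ N] (r : ℕ∞), 1 ≤ r → ∀ (f : DiffM n N r) (U : Set (DiffM n N r)),
    IsOpen[strongTop n N r] U → f ∈ U → ∀ z ∈ Omega f, z ∉ Per f →
    (∃ O : Set N, IsOpen O ∧ z ∈ O ∧ ∀ y ∈ Omega f, y ∈ O → y = z) →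
    ∃ g ∈ U, z ∈ Per g ∧ ∀ (k : ℕ) (x : N), 1 ≤ k → f^[k] x = x → g^[k] x = x

end Pool.Agent.Y504.CO
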