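import Pool.Agent.Y504.CO.Stm6

/-!
# Generic hyperbolicity of periodic points: statements
-/

set_option autoImplicit false

open scoped Manifold ContDiff Topology
open Filter Set Metric

universe u

namespace Pool.Agent.Y504.CO

open Pool.Agent.H718R2.G Pool.Agent.TH80.OMS

/-- All fixed points of `g^K` are hyperbolic (for `g^K`). -/
def HypK (n : ℕ) {N : Type u} [TopologicalSpace N] [ChartedSpace (V n) N] (K : ℕ) (g : N → N) :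
    Prop :=
  ∀ x, g^[K] x = x → ∀ ψ ∈ IsManifold.maximalAtlas (𝓡 n) ∞ N, x ∈ ψ.source →
    NoBdd (fun _ => fderiv ℝ (fun v => ψ (g^[K] (ψ.symm v))) (ψ x))

/-- CI: uniform continuity of the iterates and their derivatives, locally. -/
def S_CI : Prop :=
  ∀ (n : ℕ) (N : Type u) [TopologicalSpace N] [T2Space N] [CompactSpace N] [ChartedSpace (V n) N]
    [IsManifold (𝓡 n) ∞ N] (r : ℕ∞), 1 ≤ r → ∀ (f : DiffM n N r) (i : ℕ) (x : N),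
    (∀ B : Set N, IsOpen B → f^[i] x ∈ B → ∃ W ∈ 𝓝 x, ∃ U : Set (DiffM n N r),
      IsOpen[strongTop n N r] U ∧ f ∈ U ∧ ∀ g ∈ U, ∀ y ∈ W, g^[i] y ∈ B) ∧
    ∀ φ ∈ IsManifold.maximalAtlas (𝓡 n) ∞ N, ∀ ψ ∈ IsManifold.maximalAtlas (𝓡 n) ∞ N,
      x ∈ φ.source → f^[i] x ∈ ψ.source → ∀ ε : ℝ, 0 < ε → ∃ W ∈ 𝓝 x,
      ∃ U : Set (DiffM n N r), IsOpen[strongTop n N r] U ∧ f ∈ U ∧ ∀ g ∈ U, ∀ y ∈ W,
        y ∈ φ.source ∧ g^[i] y ∈ ψ.source ∧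
        ‖fderiv ℝ (fun v => ψ (g^[i] (φ.symm v))) (φ y) -
          fderiv ℝ (fun v => ψ (f^[i] (φ.symm v))) (φ x)‖ < ε

/-- NB: hyperbolicity of matrices is an open condition, and invariant under conjugation. -/
def S_NB : Prop :=
  (∀ (n : ℕ) (A : V n →L[ℝ] V n), NoBdd (fun _ => A) → ∃ ε : ℝ, 0 < ε ∧
    ∀ B : V n →L[ℝ] V n, ‖B - A‖ < ε → NoBdd (fun _ => B)) ∧
  ∀ (n : ℕ) (N : Type u) [TopologicalSpace N] [ChartedSpace (V n) N] [IsManifold (𝓡 n) ∞ N]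
    [T2Space N] (r : ℕ∞), 1 ≤ r → ∀ (g : DiffM n N r) (K : ℕ) (x : N), g^[K] x = x →
    ∀ φ ∈ IsManifold.maximalAtlas (𝓡 n) ∞ N, ∀ ψ ∈ IsManifold.maximalAtlas (𝓡 n) ∞ N,
    x ∈ φ.source → x ∈ ψ.source →
    NoBdd (fun _ => fderiv ℝ (fun v => φ (g^[K] (φ.symm v))) (φ x)) →
    NoBdd (fun _ => fderiv ℝ (fun v => ψ (g^[K] (ψ.symm v))) (ψ x))

/-- HD: hyperbolicity of the fixed points of `g^K` is a dense condition. -/
def S_HD : Prop :=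
  ∀ (n : ℕ) (N : Type u) [TopologicalSpace N] [T2Space N] [CompactSpace N] [ChartedSpace (V n) N]
    [IsManifold (𝓡 n) ∞ N] (r : ℕ∞), 1 ≤ r → ∀ K : ℕ, 1 ≤ K → ∀ (g : DiffM n N r)
    (U : Set (DiffM n N r)), IsOpen[strongTop n N r] U → g ∈ U → ∃ g' ∈ U, HypK n K g'

end Pool.Agent.Y504.CO
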